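import Mathlib
/-! ROW B of MP_95376e_ODD_h37.md (helper46): step (c), characters. -/
set_option autoImplicit false
namespace Pool.Agent.BertramOdd
open Subgroup

/-- ROW B: step (c). -/
theorem char_step {G : Type} [Group G] [Finite G] (V : Subgroup G) [hVn : V.Normal]
    (lam : V →* ℂˣ) (hlam : lam ≠ 1) (x : G)
    (hcam : ∀ v ∈ V, IsConj x (x * v)) :
    ∃ g : G, ∃ h : x⁻¹ * (g * x * g⁻¹) ∈ V, lam ⟨_, h⟩ ≠ 1 ∧
      ∀ v : V, lam (MulAut.conjNormal g v) = lam v := by
  classical
  have : Fintype G := Fintype.ofFinite G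
  have : Fintype V := Fintype.ofFinite V
  obtain ⟨L, hLdef⟩ : ∃ L : V →* ℂ, ∀ v, L v = (lam v : ℂ) :=
    ⟨(Units.coeHom ℂ).comp lam, fun v => rfl⟩
  have hL : L ≠ 1 := by
    intro h
    apply hlam
    ext v
    have := congrArg (fun f : V →* ℂ => f v) h
    simp only [hLdef, MonoidHom.one_apply] at this
    simp [this]
  obtain ⟨psi, hpsidef⟩ : ∃ psi : G → ℂ, ∀ y, psi y = if h : x⁻¹ * y ∈ V then L ⟨x⁻¹ * y, h⟩ else 0 :=
    ⟨_, fun y => rfl⟩
  have hsumL : ∑ v : V, L v = 0 := sum_hom_units_eq_zero L hL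
  have hpsi : ∀ (g : G) (v : V),
      psi (g * (x * v) * g⁻¹) = psi (g * x * g⁻¹) * L (MulAut.conjNormal g v) := by
    intro g v
    have e : x⁻¹ * (g * (x * v) * g⁻¹) = (x⁻¹ * (g * x * g⁻¹)) * (g * v * g⁻¹) := by group
    have hc : g * (v : G) * g⁻¹ ∈ V := hVn.conj_mem v v.2 g
    rw [hpsidef, hpsidef]
    by_cases h : x⁻¹ * (g * x * g⁻¹) ∈ V
    · have h' : x⁻¹ * (g * (x * v) * g⁻¹) ∈ V := by rw [e]; exact V.mul_mem h hc
      rw [dif_pos h, dif_pos h', ← map_mul]
      congr 1
      apply Subtype.ext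
      simpa using e
    · have h' : x⁻¹ * (g * (x * v) * g⁻¹) ∉ V := by
        rw [e]; intro h2; exact h ((V.mul_mem_cancel_right hc).1 h2)
      rw [dif_neg h, dif_neg h', zero_mul]
  have hS : ∀ z z' : G, IsConj z z' → ∑ g : G, psi (g * z * g⁻¹) = ∑ g : G, psi (g * z' * g⁻¹) := by
    intro z z' hz
    obtain ⟨c, hc⟩ := isConj_iff.1 hz
    rw [← hc]
    refine (Fintype.sum_equiv (Equiv.mulRight c) _ _ ?_).symm
    intro g
    congr 1
    simp only [Equiv.coe_mulRight]
    group
  have hS0 : ∀ v : V, ∑ g : G, psi (g * (x * v) * g⁻¹) = 0 := by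
    intro v
    have h1 : ∀ u : V, ∑ g : G, psi (g * (x * u) * g⁻¹) = ∑ g : G, psi (g * (x * v) * g⁻¹) := by
      intro u
      exact hS _ _ ((hcam u u.2).symm.trans (hcam v v.2))
    have h2 : ∑ u : V, ∑ g : G, psi (g * (x * u) * g⁻¹) = 0 := by
      rw [Finset.sum_comm]
      apply Finset.sum_eq_zero
      intro g _
      simp only [hpsi]
      rw [← Finset.mul_sum]
      have : ∑ u : V, L (MulAut.conjNormal g u) = ∑ u : V, L u :=
        Fintype.sum_equiv (MulAut.conjNormal g : MulAut V).toEquiv _ _ (fun u => rfl)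
      rw [this, hsumL, mul_zero]
    simp only [h1] at h2
    rw [Finset.sum_const, Finset.card_univ, nsmul_eq_mul] at h2
    rcases mul_eq_zero.1 h2 with h | h
    · exfalso
      have : (Fintype.card V : ℂ) ≠ 0 := by exact_mod_cast Fintype.card_ne_zero
      exact this h
    · exact h
  by_contra hcon
  push Not at hcon
  -- double sum
  have hdouble : ∑ g : G, ∑ v : V, psi (g * (x * v) * g⁻¹) * L v⁻¹ = 0 := by
    rw [Finset.sum_comm]
    apply Finset.sum_eq_zero
    intro v _
    rw [← Finset.sum_mul, hS0 v, zero_mul]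
  have hinner : ∀ g : G, ∑ v : V, psi (g * (x * v) * g⁻¹) * L v⁻¹ =
      if (x⁻¹ * (g * x * g⁻¹) ∈ V ∧ ∀ v : V, lam (MulAut.conjNormal g v) = lam v)
        then (Fintype.card V : ℂ) else 0 := by
    intro g
    obtain ⟨chi, hchi⟩ : ∃ chi : V →* ℂ, ∀ v, chi v = L (MulAut.conjNormal g v) * L v⁻¹ :=
      ⟨{ toFun := fun v => L (MulAut.conjNormal g v) * L v⁻¹
         map_one' := by simp
         map_mul' := by
          intro a b
          simp only [map_mul, mul_inv_rev]
          ring }, fun v => rfl⟩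
    have hLinv : ∀ v : V, L v * L v⁻¹ = 1 := by
      intro v; rw [← map_mul, mul_inv_cancel, map_one]
    have e1 : ∑ v : V, psi (g * (x * v) * g⁻¹) * L v⁻¹ = psi (g * x * g⁻¹) * ∑ v : V, chi v := by
      rw [Finset.mul_sum]
      apply Finset.sum_congr rfl
      intro v _
      rw [hpsi, hchi, mul_assoc]
    rw [e1]
    by_cases h : x⁻¹ * (g * x * g⁻¹) ∈ V
    · by_cases hT : ∀ v : V, lam (MulAut.conjNormal g v) = lam v
      · have hl1 : lam ⟨_, h⟩ = 1 := by
          by_contra hne
          obtain ⟨v, hv⟩ := hcon g h hne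
          exact hv (hT v)
        have hchi1 : ∀ v, chi v = 1 := by
          intro v
          rw [hchi, hLdef, hT v, ← hLdef, hLinv]
        rw [if_pos ⟨h, hT⟩]
        simp only [hchi1]
        rw [hpsidef, dif_pos h, hLdef, hl1]
        simp
      · rw [if_neg (fun hh => hT hh.2)]
        have hne : chi ≠ 1 := by
          intro h1
          apply hT
          intro v
          have h2 : chi v = 1 := by rw [h1]; rfl
          rw [hchi] at h2
          have h3 : L (MulAut.conjNormal g v) = L v := by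
            have := congrArg (· * L v) h2
            simp only [one_mul] at this
            rw [mul_assoc, mul_comm (L v⁻¹), hLinv, mul_one] at this
            exact this
          rw [hLdef, hLdef] at h3
          exact Units.ext h3
        rw [sum_hom_units_eq_zero chi hne, mul_zero]
    · rw [if_neg (fun hh => h hh.1), hpsidef, dif_neg h, zero_mul]
  simp only [hinner] at hdouble
  rw [Finset.sum_ite, Finset.sum_const_zero, add_zero, Finset.sum_const, nsmul_eq_mul] at hdouble
  rcases mul_eq_zero.1 hdouble with h | h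
  · have h1 : (1 : G) ∈ Finset.univ.filter (fun g : G => x⁻¹ * (g * x * g⁻¹) ∈ V ∧
        ∀ v : V, lam (MulAut.conjNormal g v) = lam v) := by
      simp [V.one_mem]
    have h2 := Finset.card_pos.2 ⟨_, h1⟩
    have h3 : ((Finset.univ.filter (fun g : G => x⁻¹ * (g * x * g⁻¹) ∈ V ∧
        ∀ v : V, lam (MulAut.conjNormal g v) = lam v)).card : ℂ) ≠ 0 := by
      exact_mod_cast h2.ne'
    exact h3 h
  · have : (Fintype.card V : ℂ) ≠ 0 := by exact_mod_cast Fintype.card_ne_zero
    exact this h

end Pool.Agent.BertramOdd
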