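import Mathlib
/-! ROW B' of MP_95376e_ODD_h37.md (helper46): step (b), a character fixed by a p-subgroup. -/
set_option autoImplicit false
namespace Pool.Agent.BertramOdd
open Subgroup

/-- ROW B': step (b), a character fixed by a p-subgroup. -/
theorem exists_fixed_char {G : Type} [Group G] [Finite G] {p : ℕ} (hp : p.Prime) (V S : Subgroup G)
    [V.Normal] (hV : V ≠ ⊥) (hVp : IsPGroup p V) (hcomm : ∀ v ∈ V, ∀ w ∈ V, v * w = w * v)
    (hS : IsPGroup p S) :
    ∃ lam : V →* ℂˣ, lam ≠ 1 ∧ ∀ g ∈ S, ∀ v : V, lam (MulAut.conjNormal g v) = lam v := by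
  classical
  have hpf : Fact p.Prime := ⟨hp⟩
  let iC : CommGroup V := { (inferInstance : Group V) with
    mul_comm := fun a b => Subtype.ext (hcomm a a.2 b b.2) }
  have hcard : Nat.card (V →* ℂˣ) = Nat.card V :=
    CommGroup.card_monoidHom_of_hasEnoughRootsOfUnity V ℂ
  let act : MulAction S (V →* ℂˣ) :=
    { smul := fun g lam => lam.comp (MulAut.conjNormal ((g : G)⁻¹) : MulAut V).toMonoidHom
      one_smul := by
        intro lam
        ext v
        change ((lam (MulAut.conjNormal (((1 : S) : G)⁻¹) v) : ℂˣ) : ℂ) = lam v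
        simp
      mul_smul := by
        intro g h lam
        ext v
        change ((lam (MulAut.conjNormal (((g * h : S) : G)⁻¹) v) : ℂˣ) : ℂ) =
          lam (MulAut.conjNormal ((h : G)⁻¹) (MulAut.conjNormal ((g : G)⁻¹) v))
        congr 2
        simp [mul_inv_rev, map_mul] }
  have hsmul : ∀ (g : S) (lam : V →* ℂˣ) (v : V),
      (g • lam) v = lam (MulAut.conjNormal ((g : G)⁻¹) v) := fun g lam v => rfl
  have hcp : p ∣ Nat.card V := by
    obtain ⟨n, hn⟩ := (IsPGroup.iff_card).1 hVp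
    have hne : Nat.card V ≠ 1 := by
      intro h
      exact hV (Subgroup.card_eq_one.1 h)
    rw [hn]
    rw [hn] at hne
    exact dvd_pow_self p (by rintro rfl; exact hne (pow_zero p))
  have hpos : 0 < Nat.card V := Nat.card_pos
  have hfin : Finite (V →* ℂˣ) := Nat.finite_of_card_ne_zero (by rw [hcard]; exact hpos.ne')
  have hmod := hS.card_modEq_card_fixedPoints (V →* ℂˣ)
  have hdvd : p ∣ Nat.card (MulAction.fixedPoints S (V →* ℂˣ)) := by
    rw [hcard] at hmod
    exact (Nat.modEq_zero_iff_dvd).1 (hmod.symm.trans ((Nat.modEq_zero_iff_dvd).2 hcp))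
  have h1 : (1 : V →* ℂˣ) ∈ MulAction.fixedPoints S (V →* ℂˣ) := by
    intro g
    ext v
    rw [hsmul]
    simp
  have hlt : 1 < Nat.card (MulAction.fixedPoints S (V →* ℂˣ)) := by
    have hp2 := hp.two_le
    have hpos' : 0 < Nat.card (MulAction.fixedPoints S (V →* ℂˣ)) := by
      have : Nonempty (MulAction.fixedPoints S (V →* ℂˣ)) := ⟨⟨1, h1⟩⟩
      exact Nat.card_pos
    have := Nat.le_of_dvd hpos' hdvd
    omega
  obtain ⟨⟨lam, hlam⟩, hne⟩ : ∃ a : MulAction.fixedPoints S (V →* ℂˣ), a ≠ ⟨1, h1⟩ := by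
    have : Nontrivial (MulAction.fixedPoints S (V →* ℂˣ)) := Finite.one_lt_card_iff_nontrivial.1 hlt
    exact exists_ne _
  refine ⟨lam, fun h => hne (Subtype.ext h), ?_⟩
  intro g hg v
  have h2 := congrArg (fun f : V →* ℂˣ => f v) (hlam (⟨g, hg⟩⁻¹ : S))
  simp only [hsmul] at h2
  simpa using h2

end Pool.Agent.BertramOdd
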