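import Pool.Agent.BertramOdd.Odd

/-! Fixed point free actions on a normal subgroup. -/

set_option autoImplicit false

namespace Pool.Agent.BertramOdd

open Pool.Agent.BertramR2 Subgroup

/-- a minimal normal subgroup of prime power order is abelian -/
theorem min_comm {G : Type} [Group G] [Finite G] {p : ℕ} (hp : p.Prime) (V : Subgroup G)
    [V.Normal] (hVp : IsPGroup p V) (hV : V ≠ ⊥)
    (hmin : ∀ K : Subgroup G, K.Normal → K ≤ V → K = ⊥ ∨ K = V) :
    ∀ v ∈ V, ∀ w ∈ V, v * w = w * v :=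
  fun v hv w hw => central_of_min hp V V hVp le_rfl hV hmin w hw v hv

/-- and of exponent `p` -/
theorem min_exp {G : Type} [Group G] [Finite G] {p : ℕ} (hp : p.Prime) (V : Subgroup G)
    [hVn : V.Normal] (hVp : IsPGroup p V) (hV : V ≠ ⊥)
    (hmin : ∀ K : Subgroup G, K.Normal → K ≤ V → K = ⊥ ∨ K = V) :
    ∀ v ∈ V, v ^ p = 1 := by
  have : Fact p.Prime := ⟨hp⟩
  have hcomm := min_comm hp V hVp hV hmin
  let K : Subgroup G :=
    { carrier := {v | v ∈ V ∧ v ^ p = 1}
      one_mem' := ⟨V.one_mem, one_pow p⟩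
      mul_mem' := by
        rintro a b ⟨ha, ha'⟩ ⟨hb, hb'⟩
        refine ⟨V.mul_mem ha hb, ?_⟩
        have h : Commute a b := hcomm a ha b hb
        rw [h.mul_pow, ha', hb', one_mul]
      inv_mem' := by
        rintro a ⟨ha, ha'⟩
        refine ⟨V.inv_mem ha, ?_⟩
        rw [inv_pow, ha', inv_one] }
  have hKn : K.Normal := by
    constructor
    rintro v ⟨hv, hv'⟩ g
    refine ⟨hVn.conj_mem v hv g, ?_⟩
    rw [conj_pow, hv', mul_one, mul_inv_cancel]
  have hKV : K ≤ V := fun v hv => hv.1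
  rcases hmin K hKn hKV with h | h
  · exfalso
    obtain ⟨n, hn⟩ := card_pow_dvd hp hVp (le_refl V)
    have hn0 : n ≠ 0 := by
      rintro rfl
      rw [pow_zero, Subgroup.card_eq_one] at hn
      exact hV hn
    obtain ⟨w, hw⟩ := exists_prime_orderOf_dvd_card' (G := V) p
      (by rw [hn]; exact dvd_pow_self p hn0)
    have h1 : (w : G) ∈ K := by
      refine ⟨w.2, ?_⟩
      have h2 : w ^ p = 1 := by rw [← hw]; exact pow_orderOf_eq_one w
      exact congrArg Subtype.val h2
    rw [h, Subgroup.mem_bot] at h1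
    have h2 : w = 1 := Subtype.ext h1
    rw [h2, orderOf_one] at hw
    exact hp.one_lt.ne hw
  · intro v hv
    have h1 : v ∈ K := by rw [h]; exact hv
    exact h1.2

/-- elements whose order is divisible by another prime act without fixed points -/
theorem fpf_of_camina {G : Type} [Group G] [Finite G] {p : ℕ} (hp : p.Prime) (V : Subgroup G)
    (hexp : ∀ v ∈ V, v ^ p = 1) (hcam : ∀ x, x ∉ V → ∀ v ∈ V, IsConj x (x * v))
    {s : ℕ} (hs : s.Prime) (hne : s ≠ p) {y : G} (hy : s ∣ orderOf y) {v : G} (hv : v ∈ V)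
    (hc : y * v = v * y) : v = 1 := by
  by_contra hv1
  obtain ⟨k, hk⟩ := hy
  have hpos : 0 < orderOf y := orderOf_pos y
  have hk0 : k ≠ 0 := by
    rintro rfl
    omega
  have h1 : orderOf (y ^ k) = s := by
    rw [orderOf_pow_of_dvd hk0 (by rw [hk]; exact dvd_mul_left k s), hk]
    exact Nat.mul_div_cancel s (Nat.pos_of_ne_zero hk0)
  have h2 : y ^ k ∉ V := by
    intro h
    have h3 := orderOf_dvd_of_pow_eq_one (hexp _ h)
    rw [h1] at h3
    exact hne ((Nat.prime_dvd_prime_iff_eq hs hp).1 h3)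
  have h3 : Commute y v := hc
  exact not_conj_mul hp hs hne (k := 1) h1 hv1 (by rw [pow_one]; exact hexp v hv)
    (h3.pow_left k) (hcam _ h2 v hv)

theorem ring_sum {E : Type} [Ring E] (x y : E) (hxy : Commute x y) (s : ℕ) (hs : 0 < s)
    (h1 : ∀ j, ∑ i ∈ Finset.range s, (x * y ^ j) ^ i = 0)
    (h2 : ∀ i, 0 < i → i < s → ∑ j ∈ Finset.range s, (y ^ i) ^ j = 0) : (s : E) = 0 := by
  have h3 : ∑ j ∈ Finset.range s, ∑ i ∈ Finset.range s, (x * y ^ j) ^ i = 0 :=
    Finset.sum_eq_zero (fun j _ => h1 j)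
  rw [Finset.sum_comm] at h3
  have h4 : ∀ i ∈ Finset.range s, ∑ j ∈ Finset.range s, (x * y ^ j) ^ i =
      x ^ i * ∑ j ∈ Finset.range s, (y ^ i) ^ j := by
    intro i _
    rw [Finset.mul_sum]
    apply Finset.sum_congr rfl
    intro j _
    rw [(hxy.pow_right j).mul_pow, ← pow_mul, ← pow_mul, Nat.mul_comm]
  rw [Finset.sum_congr rfl h4, Finset.sum_eq_single 0] at h3
  · simpa using h3
  · intro i hi hi0
    rw [h2 i (Nat.pos_of_ne_zero hi0) (Finset.mem_range.1 hi), mul_zero]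
  · intro h
    exact absurd (Finset.mem_range.2 hs) h

/-- a non-cyclic abelian `s`-section cannot act without fixed points -/
theorem no_fpf {G : Type} [Group G] [Finite G] {p s : ℕ} (hp : p.Prime) (hs : s.Prime)
    (hne : s ≠ p) (V : Subgroup G) [V.Normal] (hV : V ≠ ⊥)
    (hcomm : ∀ v ∈ V, ∀ w ∈ V, v * w = w * v) (hexp : ∀ v ∈ V, v ^ p = 1)
    (a b : G) (hab : ∀ v ∈ V, a * b * v * (a * b)⁻¹ = b * a * v * (b * a)⁻¹)
    (h1 : ∀ j, ∀ v ∈ V, (a * b ^ j) * v = v * (a * b ^ j) → v = 1)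
    (h1' : ∀ j, ∀ v ∈ V, (a * b ^ j) ^ s * v = v * (a * b ^ j) ^ s)
    (h2 : ∀ i, 0 < i → i < s → ∀ v ∈ V, b ^ i * v = v * b ^ i → v = 1)
    (h2' : ∀ i, ∀ v ∈ V, (b ^ i) ^ s * v = v * (b ^ i) ^ s) : False := by
  let _ : CommGroup V :=
    { (inferInstance : Group V) with
      mul_comm := fun v w => Subtype.ext (hcomm v.1 v.2 w.1 w.2) }
  let φ : G → AddMonoid.End (Additive V) := fun g =>
    MonoidHom.toAdditive (MulAut.conjNormal (H := V) g).toMonoidHom
  have hφ : ∀ g (v : V), φ g (Additive.ofMul v) = Additive.ofMul (MulAut.conjNormal g v) :=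
    fun g v => rfl
  have hmul : ∀ g h, φ (g * h) = φ g * φ h := by
    intro g h
    refine AddMonoidHom.ext (fun v => ?_)
    show (MulAut.conjNormal (g * h) v : V) = _
    rw [map_mul]
    rfl
  have hone : φ 1 = 1 := by
    refine AddMonoidHom.ext (fun v => ?_)
    show (MulAut.conjNormal (1 : G) v : V) = _
    rw [map_one]
    rfl
  have hpow : ∀ g (n : ℕ), φ (g ^ n) = φ g ^ n := by
    intro g n
    induction n with
    | zero => rw [pow_zero, pow_zero, hone]
    | succ n ih => rw [pow_succ, pow_succ, hmul, ih]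
  have hcen : ∀ g, (∀ v ∈ V, g * v = v * g) → φ g = 1 := by
    intro g hg
    refine AddMonoidHom.ext (fun v => ?_)
    show (MulAut.conjNormal g v : V) = v
    apply Subtype.ext
    rw [MulAut.conjNormal_apply, hg v.1 v.2]
    group
  have hgeom : ∀ c, (∀ v ∈ V, c * v = v * c → v = 1) → (∀ v ∈ V, c ^ s * v = v * c ^ s) →
      ∑ i ∈ Finset.range s, φ c ^ i = 0 := by
    intro c hc hcs
    have h3 : φ c ^ s = 1 := by
      rw [← hpow]
      exact hcen _ hcs
    have h4 : (φ c - 1) * ∑ i ∈ Finset.range s, φ c ^ i = 0 := by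
      rw [mul_geom_sum, h3, sub_self]
    refine AddMonoidHom.ext (fun v => ?_)
    set w : Additive V := (∑ i ∈ Finset.range s, φ c ^ i) v with hw
    have h5 : φ c w = w := by
      have h6 := congrArg (fun f : AddMonoid.End (Additive V) => f v) h4
      have h7 : φ c w - w = 0 := h6
      exact sub_eq_zero.1 h7
    have h6 : (MulAut.conjNormal c (Additive.toMul w) : V) = Additive.toMul w := h5
    have h7 := congrArg Subtype.val h6
    rw [MulAut.conjNormal_apply] at h7
    have h8 := hc (Additive.toMul w).1 (Additive.toMul w).2 (by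
      calc c * (Additive.toMul w : V).1 = (c * (Additive.toMul w : V).1 * c⁻¹) * c := by group
        _ = _ := by rw [h7])
    show Additive.toMul w = 1
    exact Subtype.ext h8
  have hcomm' : Commute (φ a) (φ b) := by
    show φ a * φ b = φ b * φ a
    rw [← hmul, ← hmul]
    refine AddMonoidHom.ext (fun v => ?_)
    show (MulAut.conjNormal (a * b) v : V) = MulAut.conjNormal (b * a) v
    apply Subtype.ext
    rw [MulAut.conjNormal_apply, MulAut.conjNormal_apply]
    exact hab v.1 v.2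
  have hs0 := ring_sum (φ a) (φ b) hcomm' s hs.pos (by
    intro j
    rw [← hpow, ← hmul]
    exact hgeom _ (h1 j) (h1' j)) (by
    intro i hi hi'
    have h3 : φ b ^ i = φ (b ^ i) := (hpow b i).symm
    rw [h3]
    exact hgeom _ (h2 i hi hi') (h2' i))
  obtain ⟨⟨v, hv⟩, hv'⟩ := Subgroup.ne_bot_iff_exists_ne_one.1 hV
  apply hv'
  have h3 := congrArg (fun f : AddMonoid.End (Additive V) => f (Additive.ofMul ⟨v, hv⟩)) hs0
  have h4 : s • (Additive.ofMul (⟨v, hv⟩ : V)) = 0 := by
    simpa using h3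
  have h5 : (⟨v, hv⟩ : V) ^ s = 1 := h4
  have h6 : (⟨v, hv⟩ : V) ^ p = 1 := Subtype.ext (hexp v hv)
  have h7 : orderOf (⟨v, hv⟩ : V) ∣ s := orderOf_dvd_of_pow_eq_one h5
  have h8 : orderOf (⟨v, hv⟩ : V) ∣ p := orderOf_dvd_of_pow_eq_one h6
  have h9 : Nat.Coprime s p := (Nat.coprime_primes hs hp).2 hne
  have h10 : orderOf (⟨v, hv⟩ : V) ∣ 1 := by
    rw [← h9]
    exact Nat.dvd_gcd h7 h8
  exact orderOf_eq_one_iff.1 (Nat.dvd_one.1 h10)

end Pool.Agent.BertramOdd
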