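import Pool.Agent.BertramR2.Basic

/-! Hall's congruence for the number of classes of a `p`-group, and the central lemma. -/

set_option autoImplicit false

namespace Pool.Agent.BertramOdd

open Pool.Agent.BertramR2 Subgroup

section Hall

variable {P : Type} [Group P]

theorem closure_pair_comm {x y : P} (h : Commute x y) :
    ∀ a ∈ closure ({x, y} : Set P), ∀ b ∈ closure ({x, y} : Set P), a * b = b * a := by
  have h0 : ∀ s ∈ ({x, y} : Set P), ∀ t ∈ ({x, y} : Set P), s * t = t * s := by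
    intro s hs t ht
    simp only [Set.mem_insert_iff, Set.mem_singleton_iff] at hs ht
    rcases hs with rfl | rfl <;> rcases ht with rfl | rfl
    · rfl
    · exact h
    · exact h.symm
    · rfl
  have h1 : closure ({x, y} : Set P) ≤ centralizer ({x, y} : Set P) := by
    rw [closure_le]
    intro s hs
    rw [SetLike.mem_coe, mem_centralizer_iff]
    intro t ht
    exact h0 t ht s hs
  have h2 : closure ({x, y} : Set P) ≤ centralizer (closure ({x, y} : Set P) : Set P) := by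
    rw [closure_le]
    intro s hs
    rw [SetLike.mem_coe, mem_centralizer_iff]
    intro a ha
    exact ((mem_centralizer_iff.1 (h1 ha)) s hs).symm
  intro a ha b hb
  exact (mem_centralizer_iff.1 (h2 hb)) a ha

variable [Finite P]

open scoped Classical in
/-- the number of pairs which generate `A` -/
noncomputable def ee [Fintype P] (A : Subgroup P) : ℕ :=
  (Finset.univ.filter fun q : P × P => closure ({q.1, q.2} : Set P) = A).card

open scoped Classical in
theorem sum_ee [Fintype P] [Fintype (Subgroup P)] (A : Subgroup P) :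
    ∑ B ∈ Finset.univ.filter (fun B : Subgroup P => B ≤ A), ee B = Nat.card A ^ 2 := by
  set S : Finset (P × P) := Finset.univ.filter fun q : P × P => q.1 ∈ A ∧ q.2 ∈ A with hS
  have h1 : S.card = Nat.card A ^ 2 := by
    have e : S = (Finset.univ.filter fun x : P => x ∈ A) ×ˢ
        (Finset.univ.filter fun x : P => x ∈ A) := by
      ext q
      simp [hS]
    rw [e, Finset.card_product, pow_two]
    have e2 : (Finset.univ.filter fun x : P => x ∈ A).card = Nat.card A := by
      rw [Nat.card_eq_fintype_card, Fintype.card_subtype]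
    rw [e2]
  have hmaps : ∀ q ∈ S, closure ({q.1, q.2} : Set P) ∈
      Finset.univ.filter (fun B : Subgroup P => B ≤ A) := by
    intro q hq
    rw [hS, Finset.mem_filter] at hq
    rw [Finset.mem_filter]
    refine ⟨Finset.mem_univ _, ?_⟩
    rw [closure_le]
    intro s hs
    simp only [Set.mem_insert_iff, Set.mem_singleton_iff] at hs
    rcases hs with rfl | rfl
    · exact hq.2.1
    · exact hq.2.2
  rw [← h1, Finset.card_eq_sum_card_fiberwise (f := fun q : P × P => closure ({q.1, q.2} : Set P))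
    (t := Finset.univ.filter (fun B : Subgroup P => B ≤ A)) hmaps]
  refine Finset.sum_congr rfl fun B hB => ?_
  rw [Finset.mem_filter] at hB
  unfold ee
  congr 1
  ext q
  rw [Finset.mem_filter, Finset.mem_filter, hS, Finset.mem_filter]
  constructor
  · rintro ⟨-, h⟩
    refine ⟨⟨Finset.mem_univ _, ?_, ?_⟩, h⟩
    · exact hB.2 (h ▸ subset_closure (Set.mem_insert _ _))
    · exact hB.2 (h ▸ subset_closure (Set.mem_insert_of_mem _ rfl))
  · rintro ⟨⟨-, -, -⟩, h⟩
    exact ⟨Finset.mem_univ _, h⟩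

theorem cast_one_of {m n : ℕ} (h : n = m + 1) : ((n : ℕ) : ZMod m) = 1 := by
  rw [h, Nat.cast_add, ZMod.natCast_self, zero_add, Nat.cast_one]

theorem sq_pow_one {R : Type*} [CommRing R] {x : R} (hx : x ^ 2 = 1) (n : ℕ) :
    (x ^ n) ^ 2 = 1 := by
  rw [← pow_mul, mul_comm, pow_mul, hx, one_pow]

theorem pow_odd {R : Type*} [CommRing R] {x : R} (hx : x ^ 2 = 1) (m : ℕ) :
    x ^ (2 * m + 1) = x := by
  rw [pow_succ, pow_mul, hx, one_pow, one_mul]

theorem psq {p : ℕ} (hp : p.Prime) : ((p : ZMod (p ^ 2 - 1)) ^ 2) = 1 := by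
  have h1 : p ^ 2 = (p ^ 2 - 1) + 1 := by
    have : 1 ≤ p ^ 2 := Nat.one_le_pow _ _ hp.pos
    omega
  have h2 : ((p ^ 2 : ℕ) : ZMod (p ^ 2 - 1)) = 1 := cast_one_of h1
  exact (Nat.cast_pow p 2).symm.trans h2

open scoped Classical in
theorem ee_eq [Fintype P] [Fintype (Subgroup P)] {p : ℕ} (hp : p.Prime) (hP : IsPGroup p P)
    (A : Subgroup P) (hA : ∀ a ∈ A, ∀ b ∈ A, a * b = b * a) :
    ((ee A : ℕ) : ZMod (p ^ 2 - 1)) = if A = ⊥ then 1 else 0 := by
  have : Fact p.Prime := ⟨hp⟩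
  induction A using WellFoundedLT.induction with
  | ind A ih =>
    have h1 : ((∑ B ∈ Finset.univ.filter (fun B : Subgroup P => B ≤ A), ee B : ℕ) :
        ZMod (p ^ 2 - 1)) = ((Nat.card A ^ 2 : ℕ) : ZMod (p ^ 2 - 1)) := by rw [sum_ee A]
    obtain ⟨n, hn⟩ := (IsPGroup.iff_card (p := p) (G := A)).1 (hP.to_subgroup A)
    have h2 : ((Nat.card A ^ 2 : ℕ) : ZMod (p ^ 2 - 1)) = 1 := by
      rw [hn]
      push_cast
      exact sq_pow_one (psq hp) n
    rw [h2] at h1
    have h3 : A ∈ Finset.univ.filter (fun B : Subgroup P => B ≤ A) := by simp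
    rw [Nat.cast_sum, ← Finset.add_sum_erase _ _ h3] at h1
    have h4 : ∑ B ∈ (Finset.univ.filter (fun B : Subgroup P => B ≤ A)).erase A,
        ((ee B : ℕ) : ZMod (p ^ 2 - 1)) =
        ∑ B ∈ (Finset.univ.filter (fun B : Subgroup P => B ≤ A)).erase A,
          if B = ⊥ then (1 : ZMod (p ^ 2 - 1)) else 0 := by
      refine Finset.sum_congr rfl fun B hB => ?_
      rw [Finset.mem_erase, Finset.mem_filter] at hB
      exact ih B (lt_of_le_of_ne hB.2.2 hB.1)
        (fun a ha b hb => hA a (hB.2.2 ha) b (hB.2.2 hb))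
    rw [h4, Finset.sum_ite_eq'] at h1
    by_cases hbot : A = ⊥
    · subst hbot
      simpa using h1
    · rw [if_pos (by
        rw [Finset.mem_erase, Finset.mem_filter]
        exact ⟨Ne.symm hbot, Finset.mem_univ _, bot_le⟩)] at h1
      rw [if_neg hbot]
      exact add_eq_right.1 h1

/-- ROW A: Hall's congruence. -/
theorem hall {P : Type} [Group P] [Finite P] {p : ℕ} (hp : p.Prime) (hP : IsPGroup p P) :
    Nat.card P * cc P ≡ 1 [MOD p ^ 2 - 1] := by
  classical
  have : Fintype P := Fintype.ofFinite P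
  have : Fintype (Subgroup P) := Fintype.ofFinite _
  have h1 := card_comm_eq_card_conjClasses_mul_card P
  have h2 : Nat.card P * cc P = (Finset.univ.filter fun q : P × P => Commute q.1 q.2).card := by
    rw [mul_comm]
    unfold cc
    rw [← h1, Nat.card_eq_fintype_card, Fintype.card_subtype]
  rw [h2, ← ZMod.natCast_eq_natCast_iff]
  set t : Finset (Subgroup P) := Finset.univ.filter
    (fun B : Subgroup P => ∀ a ∈ B, ∀ b ∈ B, a * b = b * a) with ht
  have hmaps : ∀ q ∈ (Finset.univ.filter fun q : P × P => Commute q.1 q.2),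
      closure ({q.1, q.2} : Set P) ∈ t := by
    intro q hq
    rw [Finset.mem_filter] at hq
    rw [ht, Finset.mem_filter]
    exact ⟨Finset.mem_univ _, closure_pair_comm hq.2⟩
  rw [Finset.card_eq_sum_card_fiberwise
    (f := fun q : P × P => closure ({q.1, q.2} : Set P)) (t := t) hmaps]
  have h3 : ∀ B ∈ t, ((Finset.univ.filter fun q : P × P => Commute q.1 q.2).filter
      fun q => closure ({q.1, q.2} : Set P) = B).card = ee B := by
    intro B hB
    rw [ht, Finset.mem_filter] at hB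
    unfold ee
    congr 1
    ext q
    rw [Finset.mem_filter, Finset.mem_filter, Finset.mem_filter]
    constructor
    · rintro ⟨-, h⟩
      exact ⟨Finset.mem_univ _, h⟩
    · rintro ⟨-, h⟩
      refine ⟨⟨Finset.mem_univ _, ?_⟩, h⟩
      exact hB.2 _ (h ▸ subset_closure (Set.mem_insert _ _)) _
        (h ▸ subset_closure (Set.mem_insert_of_mem _ rfl))
  rw [Finset.sum_congr rfl h3, Nat.cast_sum]
  rw [Finset.sum_congr rfl (fun B hB => ee_eq hp hP B ((Finset.mem_filter.1 hB).2))]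
  have hbt : (⊥ : Subgroup P) ∈ t := by
    rw [ht, Finset.mem_filter]
    refine ⟨Finset.mem_univ _, ?_⟩
    intro a ha b hb
    rw [mem_bot] at ha hb
    rw [ha, hb]
  rw [Finset.sum_ite_eq', if_pos hbt]
  simp

end Hall

section Central

variable {Q : Type} [Group Q]

theorem conj_all {p : ℕ} (hp : p.Prime) (Z : Subgroup Q) (hZ : Nat.card Z = p)
    (hcen : ∀ z ∈ Z, ∀ g : Q, g * z = z * g) {x : Q}
    (h : ∃ z ∈ Z, z ≠ 1 ∧ IsConj x (x * z)) : ∀ z ∈ Z, IsConj x (x * z) := by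
  have : Fact p.Prime := ⟨hp⟩
  obtain ⟨z, hz, hz1, hc⟩ := h
  obtain ⟨g, hg⟩ := isConj_iff.1 hc
  intro z' hz'
  have h1 : (⟨z', hz'⟩ : Z) ∈ Submonoid.powers (⟨z, hz⟩ : Z) := by
    apply mem_powers_of_prime_card hZ
    intro h0
    exact hz1 (congrArg Subtype.val h0)
  obtain ⟨i, hi⟩ := h1
  have hi' : z ^ i = z' := congrArg Subtype.val hi
  rw [← hi']
  refine isConj_iff.2 ⟨g ^ i, ?_⟩
  clear hi hi' hz'
  induction i with
  | zero => simp
  | succ i ih =>
    have e : g ^ (i + 1) * x * (g ^ (i + 1))⁻¹ = g * (g ^ i * x * (g ^ i)⁻¹) * g⁻¹ := by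
      rw [pow_succ']
      group
    rw [e, ih]
    have hzi : g * z ^ i = z ^ i * g := hcen _ (Z.pow_mem hz i) g
    calc g * (x * z ^ i) * g⁻¹ = (g * x * g⁻¹) * (g * z ^ i * g⁻¹) := by group
      _ = (x * z) * z ^ i := by rw [hg, hzi]; group
      _ = x * z ^ (i + 1) := by rw [pow_succ']; group

theorem cc_central [Finite Q] {p : ℕ} (hp : p.Prime) (Z : Subgroup Q) [Z.Normal]
    (hZ : Nat.card Z = p) (hcen : ∀ z ∈ Z, ∀ g : Q, g * z = z * g)
    (h : ∀ x, x ∉ Z → ∃ z ∈ Z, z ≠ 1 ∧ IsConj x (x * z)) :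
    cc Q + 1 = cc (Q ⧸ Z) + p := by
  classical
  have : Fintype (ConjClasses Q) := Fintype.ofFinite _
  have : Fintype (ConjClasses (Q ⧸ Z)) := Fintype.ofFinite _
  have : Fintype Z := Fintype.ofFinite _
  set f : ConjClasses Q → ConjClasses (Q ⧸ Z) := ConjClasses.map (QuotientGroup.mk' Z) with hf
  have hfm : ∀ x : Q, f (ConjClasses.mk x) = ConjClasses.mk (x : Q ⧸ Z) := fun x => rfl
  have h1 : (Finset.univ.filter fun C => f C = ConjClasses.mk 1).card = p := by
    rw [← hZ, Nat.card_eq_fintype_card (α := Z), ← Fintype.card_subtype]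
    symm
    refine Fintype.card_of_bijective (f := fun z : Z =>
      (⟨ConjClasses.mk (z : Q), by
        rw [hfm, (QuotientGroup.eq_one_iff (z : Q)).2 z.2]⟩ :
        {C : ConjClasses Q // f C = ConjClasses.mk 1})) ⟨?_, ?_⟩
    · intro z z' hzz
      have h2 := congrArg Subtype.val hzz
      rw [ConjClasses.mk_eq_mk_iff_isConj] at h2
      obtain ⟨g, hg⟩ := isConj_iff.1 h2
      rw [hcen z z.2 g, mul_inv_cancel_right] at hg
      exact Subtype.ext hg
    · rintro ⟨C, hC⟩
      obtain ⟨x, rfl⟩ := ConjClasses.exists_rep C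
      rw [hfm, ConjClasses.mk_eq_mk_iff_isConj, isConj_one_left] at hC
      exact ⟨⟨x, (QuotientGroup.eq_one_iff x).1 hC⟩, rfl⟩
  have h2 : ∀ D : ConjClasses (Q ⧸ Z), D ≠ ConjClasses.mk 1 →
      (Finset.univ.filter fun C => f C = D).card = 1 := by
    intro D hD
    obtain ⟨y, rfl⟩ := ConjClasses.exists_rep D
    obtain ⟨x, rfl⟩ := QuotientGroup.mk_surjective y
    have hx : x ∉ Z := fun hx => hD (by rw [(QuotientGroup.eq_one_iff x).2 hx])
    rw [Finset.card_eq_one]
    refine ⟨ConjClasses.mk x, ?_⟩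
    ext C
    rw [Finset.mem_filter, Finset.mem_singleton]
    constructor
    · rintro ⟨-, hC⟩
      obtain ⟨y, rfl⟩ := ConjClasses.exists_rep C
      rw [hfm, ConjClasses.mk_eq_mk_iff_isConj] at hC
      obtain ⟨g, hg⟩ := isConj_iff.1 hC
      obtain ⟨g, rfl⟩ := QuotientGroup.mk_surjective g
      have h3 : ((x : Q) : Q ⧸ Z) = ((g * y * g⁻¹ : Q) : Q ⧸ Z) := by
        rw [← hg]
        rfl
      have h4 : x⁻¹ * (g * y * g⁻¹) ∈ Z := QuotientGroup.eq.1 h3
      rw [ConjClasses.mk_eq_mk_iff_isConj]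
      have h5 := conj_all hp Z hZ hcen (h x hx) _ h4
      rw [mul_inv_cancel_left] at h5
      exact (isConj_iff.2 ⟨g, rfl⟩ : IsConj y (g * y * g⁻¹)).trans h5.symm
    · rintro rfl
      exact ⟨Finset.mem_univ _, hfm x⟩
  have h3 : cc Q = ∑ D : ConjClasses (Q ⧸ Z), (Finset.univ.filter fun C => f C = D).card := by
    unfold cc
    rw [Nat.card_eq_fintype_card, ← Finset.card_univ]
    exact Finset.card_eq_sum_card_fiberwise (fun _ _ => Finset.mem_univ _)
  rw [h3, ← Finset.add_sum_erase _ _ (Finset.mem_univ (ConjClasses.mk (1 : Q ⧸ Z))), h1,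
    Finset.sum_congr rfl (fun D hD => h2 D (Finset.ne_of_mem_erase hD)), Finset.sum_const,
    Finset.card_erase_of_mem (Finset.mem_univ _), Finset.card_univ]
  have h4 : cc (Q ⧸ Z) = Fintype.card (ConjClasses (Q ⧸ Z)) := Nat.card_eq_fintype_card
  have h5 : 1 ≤ Fintype.card (ConjClasses (Q ⧸ Z)) := Fintype.card_pos
  rw [h4]
  simp only [smul_eq_mul, mul_one]
  omega

end Central

/-- ROW A': the central lemma. -/
theorem central {Q : Type} [Group Q] [Finite Q] {p : ℕ} (hp : p.Prime) (hQ : IsPGroup p Q)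
    (Z : Subgroup Q) [Z.Normal] (hZ : Nat.card Z = p) (hcen : ∀ z ∈ Z, ∀ g : Q, g * z = z * g)
    (h : ∀ x, x ∉ Z → ∃ z ∈ Z, z ≠ 1 ∧ IsConj x (x * z)) :
    ∃ m : ℕ, Nat.card (Q ⧸ Z) = p ^ (2 * m) := by
  have : Fact p.Prime := ⟨hp⟩
  obtain ⟨M, hM⟩ := (IsPGroup.iff_card (p := p) (G := Q ⧸ Z)).1 (hQ.to_quotient Z)
  rcases Nat.even_or_odd' M with ⟨m, hm | hm⟩
  · exact ⟨m, by rw [hM, hm]⟩
  · exfalso
    have h1 := hall hp hQ
    have h2 := hall hp (hQ.to_quotient Z)
    have h3 := cc_central hp Z hZ hcen h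
    have hcard : Nat.card Q = Nat.card (Q ⧸ Z) * p := by
      rw [Subgroup.card_eq_card_quotient_mul_card_subgroup Z, hZ]
    rw [← ZMod.natCast_eq_natCast_iff] at h1 h2
    rw [hcard, hM, hm] at h1
    rw [hM, hm] at h2
    push_cast at h1 h2
    have e1 : ((p : ZMod (p ^ 2 - 1)) ^ (2 * m + 1)) = p := pow_odd (psq hp) m
    rw [e1] at h1 h2
    have e2 : (p : ZMod (p ^ 2 - 1)) * p = 1 := by rw [← pow_two, psq hp]
    rw [e2, one_mul] at h1
    have h4 : ((cc (Q ⧸ Z) : ℕ) : ZMod (p ^ 2 - 1)) = p := by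
      calc ((cc (Q ⧸ Z) : ℕ) : ZMod (p ^ 2 - 1))
          = (p * p) * ((cc (Q ⧸ Z) : ℕ) : ZMod (p ^ 2 - 1)) := by rw [e2, one_mul]
        _ = p * (p * ((cc (Q ⧸ Z) : ℕ) : ZMod (p ^ 2 - 1))) := by ring
        _ = p := by rw [h2, mul_one]
    have h5 := congrArg (fun n : ℕ => (n : ZMod (p ^ 2 - 1))) h3
    push_cast at h5
    rw [h1, h4] at h5
    have h6 : ((2 : ℕ) : ZMod (p ^ 2 - 1)) = ((2 * p : ℕ) : ZMod (p ^ 2 - 1)) := by
      push_cast
      calc (2 : ZMod (p ^ 2 - 1)) = 1 + 1 := by norm_num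
        _ = p + p := h5
        _ = 2 * p := by ring
    rw [ZMod.natCast_eq_natCast_iff] at h6
    have hp2 := hp.two_le
    have h7 : (p ^ 2 - 1) ∣ 2 * p - 2 := (Nat.modEq_iff_dvd' (by omega)).1 h6
    have h8 := Nat.le_of_dvd (by omega) h7
    have h9 : 2 * p ≤ p ^ 2 := by nlinarith
    omega

end Pool.Agent.BertramOdd
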