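import Pool.Agent.BertramOdd.Odd

/-! Hall's congruence for the number of classes, general form. -/

set_option autoImplicit false

namespace Pool.Agent.BertramOdd

open Pool.Agent.BertramR2 Subgroup

theorem sq_modEq_one {d : ℕ} : ∀ n : ℕ, n ≠ 0 → (∀ s : ℕ, s.Prime → s ∣ n → d ∣ s ^ 2 - 1) →
    n ^ 2 ≡ 1 [MOD d] := by
  intro n
  induction n using Nat.recOnMul with
  | zero => intro h; exact absurd rfl h
  | one => intro _ _; rfl
  | prime q hq =>
    intro _ h
    have h1 := h q hq dvd_rfl
    exact ((Nat.modEq_iff_dvd' (Nat.one_le_pow _ _ hq.pos)).2 h1).symm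
  | mul a b ha hb =>
    intro hab h
    have ha0 : a ≠ 0 := fun h => hab (by rw [h, Nat.zero_mul])
    have hb0 : b ≠ 0 := fun h => hab (by rw [h, Nat.mul_zero])
    have h1 := ha ha0 (fun s hs hsa => h s hs (hsa.mul_right b))
    have h2 := hb hb0 (fun s hs hsb => h s hs (hsb.mul_left a))
    rw [mul_pow]
    exact (h1.mul h2)

/-- Hall's congruence: if `d` divides `s ^ 2 - 1` for all primes `s` dividing `|G|` then
`|G| k(G) = 1` modulo `d`. -/
theorem hallG {G : Type} [Group G] [Finite G] {d : ℕ}
    (hd : ∀ s : ℕ, s.Prime → s ∣ Nat.card G → d ∣ s ^ 2 - 1) :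
    Nat.card G * cc G ≡ 1 [MOD d] := by
  classical
  have : Fintype G := Fintype.ofFinite G
  have hsq : ∀ A : Subgroup G, Nat.card A ^ 2 ≡ 1 [MOD d] := by
    intro A
    apply sq_modEq_one _ Nat.card_pos.ne'
    intro s hs hsA
    exact hd s hs (hsA.trans (Subgroup.card_subgroup_dvd_card A))
  let gen : G × G → Subgroup G := fun x => Subgroup.closure {x.1, x.2}
  let e : Subgroup G → ℕ := fun A => (Finset.univ.filter (fun x : G × G => gen x = A)).card
  have hgen : ∀ (x : G × G) (A : Subgroup G), gen x ≤ A ↔ x.1 ∈ A ∧ x.2 ∈ A := by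
    intro x A
    show Subgroup.closure {x.1, x.2} ≤ A ↔ _
    rw [Subgroup.closure_le, Set.insert_subset_iff, Set.singleton_subset_iff]
    rfl
  -- sum over the subgroups of `A`
  have hsum : ∀ A : Subgroup G, ∑ B ∈ Finset.univ.filter (fun B : Subgroup G => B ≤ A), e B =
      Nat.card A ^ 2 := by
    intro A
    have h1 : (Finset.univ.filter (fun x : G × G => gen x ≤ A)).card =
        ∑ B ∈ Finset.univ.filter (fun B : Subgroup G => B ≤ A),
          ((Finset.univ.filter (fun x : G × G => gen x ≤ A)).filter (fun x => gen x = B)).card := by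
      apply Finset.card_eq_sum_card_fiberwise
      intro x hx
      simpa using hx
    have h2 : (Finset.univ.filter (fun x : G × G => gen x ≤ A)).card = Nat.card A ^ 2 := by
      rw [pow_two, ← Nat.card_prod, Nat.card_eq_fintype_card, ← Fintype.card_coe]
      apply Fintype.card_congr
      refine ⟨fun x => (⟨x.1.1, ((hgen x.1 A).1 (Finset.mem_filter.1 x.2).2).1⟩,
        ⟨x.1.2, ((hgen x.1 A).1 (Finset.mem_filter.1 x.2).2).2⟩), fun y => ⟨(y.1.1, y.2.1), ?_⟩, ?_, ?_⟩
      · simp only [Finset.mem_filter, Finset.mem_univ, true_and]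
        exact (hgen _ A).2 ⟨y.1.2, y.2.2⟩
      · intro x
        rfl
      · intro y
        rfl
    rw [← h2, h1]
    apply Finset.sum_congr rfl
    intro B hB
    show (Finset.univ.filter (fun x : G × G => gen x = B)).card = _
    congr 1
    ext x
    simp only [Finset.mem_filter, Finset.mem_univ, true_and]
    constructor
    · intro h
      refine ⟨?_, h⟩
      rw [h]
      simpa using hB
    · exact fun h => h.2
  have hebot : e ⊥ = 1 := by
    have h1 := hsum ⊥
    have h2 : (Finset.univ.filter (fun B : Subgroup G => B ≤ ⊥)) = {⊥} := by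
      ext B
      simp
    rw [h2, Finset.sum_singleton, Subgroup.card_bot] at h1
    simpa using h1
  -- abelian subgroups
  have habel : ∀ n : ℕ, ∀ A : Subgroup G, Nat.card A = n → A ≠ ⊥ → e A ≡ 0 [MOD d] := by
    intro n
    induction n using Nat.strong_induction_on with
    | _ n ih =>
    intro A hA hbot
    have h1 := hsum A
    have hAmem : A ∈ Finset.univ.filter (fun B : Subgroup G => B ≤ A) := by simp
    have hBmem : (⊥ : Subgroup G) ∈
        (Finset.univ.filter (fun B : Subgroup G => B ≤ A)).erase A := by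
      simp [Ne.symm hbot]
    rw [← Finset.add_sum_erase _ _ hAmem, ← Finset.add_sum_erase _ _ hBmem, hebot] at h1
    have h2 : ∑ B ∈ ((Finset.univ.filter (fun B : Subgroup G => B ≤ A)).erase A).erase ⊥, e B
        ≡ 0 [MOD d] := by
      rw [Nat.modEq_zero_iff_dvd]
      apply Finset.dvd_sum
      intro B hB
      simp only [Finset.mem_erase, Finset.mem_filter, Finset.mem_univ, true_and] at hB
      obtain ⟨hB1, hB2, hB3⟩ := hB
      rw [← Nat.modEq_zero_iff_dvd]
      apply ih (Nat.card B) _ B rfl hB1
      rw [← hA]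
      have h3 : B < A := lt_of_le_of_ne hB3 hB2
      have h4 := Set.Finite.card_lt_card (Set.toFinite (A : Set G)) (SetLike.coe_ssubset_coe.2 h3)
      exact h4
    have h3 := hsq A
    rw [← h1] at h3
    have h4 : e A + (1 + 0) ≡ 0 + 1 [MOD d] :=
      ((Nat.ModEq.refl (e A)).add ((Nat.ModEq.refl 1).add h2.symm)).trans h3
    exact Nat.ModEq.add_right_cancel' 1 h4
  have hcomm := card_comm_eq_card_conjClasses_mul_card G
  have htot : Nat.card {x : G × G // Commute x.1 x.2} =
      ∑ A ∈ Finset.univ.filter (fun A : Subgroup G => ∀ a ∈ A, ∀ b ∈ A, a * b = b * a), e A := by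
    rw [Nat.card_eq_fintype_card, Fintype.card_subtype]
    rw [Finset.card_eq_sum_card_fiberwise (f := gen)
      (t := Finset.univ.filter (fun A : Subgroup G => ∀ a ∈ A, ∀ b ∈ A, a * b = b * a))]
    · apply Finset.sum_congr rfl
      intro A hA
      show _ = (Finset.univ.filter (fun x : G × G => gen x = A)).card
      congr 1
      ext x
      simp only [Finset.mem_filter, Finset.mem_univ, true_and] at hA ⊢
      constructor
      · exact fun h => h.2
      · intro h
        refine ⟨?_, h⟩
        have h1 := (hgen x A).1 h.le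
        exact hA _ h1.1 _ h1.2
    · intro x hx
      have hx' : Commute x.1 x.2 := by simpa using hx
      simp only [Finset.coe_filter, Finset.mem_univ, true_and, Set.mem_ofPred_eq]
      have h1 : gen x ≤ Subgroup.centralizer (gen x : Set G) := by
        have h2 : gen x ≤ Subgroup.centralizer ({x.1, x.2} : Set G) := by
          rw [hgen]
          constructor
          · rw [Subgroup.mem_centralizer_iff]
            intro h hh
            rcases hh with rfl | hh
            · rfl
            · rw [Set.mem_singleton_iff.1 hh]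
              exact hx'.symm
          · rw [Subgroup.mem_centralizer_iff]
            intro h hh
            rcases hh with rfl | hh
            · exact hx'
            · rw [Set.mem_singleton_iff.1 hh]
        show gen x ≤ Subgroup.centralizer ((Subgroup.closure {x.1, x.2} : Subgroup G) : Set G)
        rwa [Subgroup.centralizer_closure]
      intro a ha b hb
      exact (Subgroup.mem_centralizer_iff.1 (h1 hb) a ha)
  rw [hcomm] at htot
  have hbm : (⊥ : Subgroup G) ∈
      Finset.univ.filter (fun A : Subgroup G => ∀ a ∈ A, ∀ b ∈ A, a * b = b * a) := by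
    simp
  rw [← Finset.add_sum_erase _ _ hbm, hebot] at htot
  rw [Nat.mul_comm]
  show Nat.card (ConjClasses G) * Nat.card G ≡ 1 [MOD d]
  rw [htot]
  have h2 : ∑ A ∈ (Finset.univ.filter
      (fun A : Subgroup G => ∀ a ∈ A, ∀ b ∈ A, a * b = b * a)).erase ⊥, e A ≡ 0 [MOD d] := by
    rw [Nat.modEq_zero_iff_dvd]
    apply Finset.dvd_sum
    intro B hB
    rw [← Nat.modEq_zero_iff_dvd]
    exact habel _ B rfl (Finset.mem_erase.1 hB).1
  exact ((Nat.ModEq.refl 1).add h2)

end Pool.Agent.BertramOdd
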