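import Pool.Agent.BertramOdd.Fpf
import Pool.Agent.BertramOdd.Char
import Pool.Agent.BertramOdd.Fix
import Pool.Agent.BertramOdd.Hall

/-! Camina pairs and the parity of the `p`-exponent. -/

set_option autoImplicit false

namespace Pool.Agent.BertramOdd

open Pool.Agent.BertramR2 Subgroup

/-- the stabilizer of a character of `V` -/
def stab {G : Type} [Group G] (V : Subgroup G) [V.Normal] (lam : V →* ℂˣ) : Subgroup G where
  carrier := {g | ∀ v : V, lam (MulAut.conjNormal g v) = lam v}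
  one_mem' := by
    intro v
    rw [map_one]
    rfl
  mul_mem' := by
    intro a b ha hb v
    rw [map_mul]
    show lam (MulAut.conjNormal a (MulAut.conjNormal b v)) = lam v
    rw [ha, hb]
  inv_mem' := by
    intro a ha v
    have h1 := ha (MulAut.conjNormal a⁻¹ v)
    rw [← h1]
    congr 1
    apply Subtype.ext
    rw [MulAut.conjNormal_apply, MulAut.conjNormal_apply]
    group

theorem mem_stab {G : Type} [Group G] (V : Subgroup G) [V.Normal] (lam : V →* ℂˣ) (g : G) :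
    g ∈ stab V lam ↔ ∀ v : V, lam (MulAut.conjNormal g v) = lam v := Iff.rfl

/-- the stabilizer of a nontrivial character is a `p`-group -/
theorem stab_pgroup {G : Type} [Group G] [Finite G] {p : ℕ} (hp : p.Prime) (V : Subgroup G)
    [V.Normal] (hcomm : ∀ v ∈ V, ∀ w ∈ V, v * w = w * v)
    (hexp : ∀ v ∈ V, v ^ p = 1) (hcam : ∀ x, x ∉ V → ∀ v ∈ V, IsConj x (x * v))
    (lam : V →* ℂˣ) (hlam : lam ≠ 1) : ∃ k, Nat.card (stab V lam) = p ^ k := by
  refine ⟨_, Nat.eq_prime_pow_of_unique_prime_dvd (p := p) Nat.card_pos.ne' ?_⟩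
  intro s hs hsd
  by_contra hne
  have : Fact s.Prime := ⟨hs⟩
  obtain ⟨y, hy⟩ := exists_prime_orderOf_dvd_card' s hsd
  have hy' : orderOf (y : G) = s := by rw [← hy]; exact Subgroup.orderOf_coe y
  have hfix : ∀ v ∈ V, (y : G) * v = v * y → v = 1 := fun v hv hc =>
    fpf_of_camina hp V hexp hcam hs hne (by rw [hy']) hv hc
  let _ : CommGroup V :=
    { (inferInstance : Group V) with
      mul_comm := fun v w => Subtype.ext (hcomm v.1 v.2 w.1 w.2) }
  let f : V → V := fun v => MulAut.conjNormal (y : G) v * v⁻¹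
  have hf : Function.Injective f := by
    intro v w hvw
    have h1 : (y : G) * v * (y : G)⁻¹ * (v : G)⁻¹ = (y : G) * w * (y : G)⁻¹ * (w : G)⁻¹ :=
      congrArg Subtype.val hvw
    have h2 : (y : G) * ((w : G)⁻¹ * v) = ((w : G)⁻¹ * v) * y := by
      have h3 : (w : G)⁻¹ * (v : G) ∈ V := V.mul_mem (V.inv_mem w.2) v.2
      have hyv : (y : G) * v * (y : G)⁻¹ ∈ V := Subgroup.Normal.conj_mem inferInstance _ v.2 _
      have hyw : (y : G) * w * (y : G)⁻¹ ∈ V := Subgroup.Normal.conj_mem inferInstance _ w.2 _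
      have h4 : ((y : G) * w * (y : G)⁻¹)⁻¹ * ((y : G) * v * (y : G)⁻¹) = (w : G)⁻¹ * v := by
        have h5 : (y : G) * v * (y : G)⁻¹ = (y : G) * w * (y : G)⁻¹ * (w : G)⁻¹ * v := by
          rw [← h1]
          group
        rw [h5]
        group
      calc (y : G) * ((w : G)⁻¹ * v)
          = (((y : G) * w * (y : G)⁻¹)⁻¹ * ((y : G) * v * (y : G)⁻¹)) * y := by group
        _ = ((w : G)⁻¹ * v) * y := by rw [h4]
    have h3 := hfix _ (V.mul_mem (V.inv_mem w.2) v.2) h2
    apply Subtype.ext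
    exact (inv_mul_eq_one.1 h3).symm
  have hsurj : Function.Surjective f := Finite.surjective_of_injective hf
  apply hlam
  ext v
  obtain ⟨w, rfl⟩ := hsurj v
  have h1 := (mem_stab V lam y).1 y.2 w
  show ((lam (MulAut.conjNormal (y : G) w * w⁻¹) : ℂˣ) : ℂ) = ((1 : V →* ℂˣ) _ : ℂˣ)
  rw [map_mul, h1, map_inv, mul_inv_cancel]
  rfl

theorem card_range {G : Type} [Group G] [Finite G] {p : ℕ} (hp : p.Prime) (V : Subgroup G)
    (hexp : ∀ v ∈ V, v ^ p = 1) (lam : V →* ℂˣ) (hlam : lam ≠ 1) :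
    Nat.card lam.range = p := by
  have : NeZero p := ⟨hp.ne_zero⟩
  have h1 : lam.range ≤ rootsOfUnity p ℂ := by
    rintro _ ⟨v, rfl⟩
    rw [mem_rootsOfUnity, ← map_pow]
    have h2 : v ^ p = 1 := Subtype.ext (hexp v.1 v.2)
    rw [h2, map_one]
  have h2 : Nat.card (rootsOfUnity p ℂ) = p := Complex.card_rootsOfUnity p
  have h3 := Subgroup.card_dvd_of_le h1
  rw [h2] at h3
  rcases (Nat.dvd_prime hp).1 h3 with h | h
  · exfalso
    apply hlam
    rw [Subgroup.card_eq_one] at h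
    ext v
    have h4 : lam v ∈ lam.range := ⟨v, rfl⟩
    rw [h, Subgroup.mem_bot] at h4
    rw [h4]
    rfl
  · exact h

theorem parity {G : Type} [Group G] [Finite G] {p : ℕ} (hp : p.Prime) (V : Subgroup G)
    [V.Normal] (hV : V ≠ ⊥) (hVp : IsPGroup p V) (hcomm : ∀ v ∈ V, ∀ w ∈ V, v * w = w * v)
    (hexp : ∀ v ∈ V, v ^ p = 1) (hcam : ∀ x, x ∉ V → ∀ v ∈ V, IsConj x (x * v)) :
    Even ((Nat.card (G ⧸ V)).factorization p) := by
  have : Fact p.Prime := ⟨hp⟩
  obtain ⟨S, hVS⟩ := hVp.exists_le_sylow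
  obtain ⟨lam, hlam, hfix⟩ := exists_fixed_char hp V (S : Subgroup G) hV hVp hcomm S.isPGroup'
  obtain ⟨k, hk⟩ := stab_pgroup hp V hcomm hexp hcam lam hlam
  have hST : (S : Subgroup G) ≤ stab V lam := fun g hg => hfix g hg
  have hTS : stab V lam = S := S.is_maximal' (IsPGroup.of_card hk) hST
  set V' : Subgroup S := V.subgroupOf S with hV'
  set K' : Subgroup S := (lam.ker.map V.subtype).subgroupOf S with hK'
  have memK' : ∀ g : S, g ∈ K' ↔ ∃ h : (g : G) ∈ V, lam ⟨g, h⟩ = 1 := by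
    intro g
    rw [hK', Subgroup.mem_subgroupOf]
    constructor
    · rintro ⟨v, hv, hvg⟩
      refine ⟨by rw [← hvg]; exact v.2, ?_⟩
      have h1 : (⟨(g : G), by rw [← hvg]; exact v.2⟩ : V) = v := Subtype.ext hvg.symm
      rw [h1]
      exact hv
    · rintro ⟨h, h1⟩
      exact ⟨⟨g, h⟩, h1, rfl⟩
  have hK'n : K'.Normal := by
    constructor
    intro v hv g
    obtain ⟨h1, h2⟩ := (memK' v).1 hv
    rw [memK']
    refine ⟨Subgroup.Normal.conj_mem inferInstance _ h1 _, ?_⟩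
    have h3 := hfix g g.2 ⟨v, h1⟩
    rw [h2] at h3
    rw [← h3]
    congr 1
  have hK'V' : K' ≤ V' := by
    intro g hg
    obtain ⟨h1, -⟩ := (memK' g).1 hg
    exact Subgroup.mem_subgroupOf.2 h1
  set Z : Subgroup (S ⧸ K') := V'.map (QuotientGroup.mk' K') with hZ
  have hZn : Z.Normal := by
    have : V'.Normal := by
      rw [hV']
      infer_instance
    exact this.map _ (QuotientGroup.mk'_surjective K')
  have hV'card : Nat.card V' = Nat.card V := Nat.card_congr (Subgroup.subgroupOfEquivOfLe hVS).toEquiv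
  have hK'card : Nat.card K' = Nat.card lam.ker := by
    have h1 : lam.ker.map V.subtype ≤ (S : Subgroup G) := by
      rintro _ ⟨v, -, rfl⟩
      exact hVS v.2
    rw [hK', Nat.card_congr (Subgroup.subgroupOfEquivOfLe h1).toEquiv]
    exact (Nat.card_congr (lam.ker.equivMapOfInjective V.subtype V.subtype_injective).toEquiv).symm
  have hVk : Nat.card V = p * Nat.card lam.ker := by
    have h1 := lam.ker.card_mul_index
    rw [Subgroup.index_ker, card_range hp V hexp lam hlam] at h1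
    rw [← h1, Nat.mul_comm]
  have hkerpos : 0 < Nat.card lam.ker := Nat.card_pos
  have hZcard : Nat.card Z = p := by
    have h1 := card_map_mul K' V'
    rw [inf_eq_left.2 hK'V', hV'card, hK'card, hVk, ← hZ] at h1
    exact Nat.eq_of_mul_eq_mul_left hkerpos (by rw [h1, Nat.mul_comm])
  have hSp : IsPGroup p (S ⧸ K') := S.isPGroup'.to_quotient K'
  obtain ⟨m, hm⟩ := central hp hSp Z hZcard (by
    rintro _ ⟨v, hv, rfl⟩ g
    obtain ⟨g, rfl⟩ := QuotientGroup.mk'_surjective K' g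
    rw [← map_mul, ← map_mul]
    apply QuotientGroup.eq.2
    have hvV : (v : G) ∈ V := Subgroup.mem_subgroupOf.1 hv
    rw [memK']
    have h1 : (((g * v)⁻¹ * (v * g) : S) : G) = (v : G)⁻¹ * ((g : G)⁻¹ * v * ((g : G)⁻¹)⁻¹) := by
      show ((g : G) * v)⁻¹ * ((v : G) * g) = _
      group
    have hgv : (g : G)⁻¹ * v * ((g : G)⁻¹)⁻¹ ∈ V := Subgroup.Normal.conj_mem inferInstance _ hvV _
    refine ⟨by rw [h1]; exact V.mul_mem (V.inv_mem hvV) hgv, ?_⟩
    have h2 := hfix (g : G)⁻¹ (S.inv_mem g.2) ⟨v, hvV⟩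
    have h3 : (⟨(((g * v)⁻¹ * (v * g) : S) : G),
        by rw [h1]; exact V.mul_mem (V.inv_mem hvV) hgv⟩ : V) =
        (⟨v, hvV⟩ : V)⁻¹ * MulAut.conjNormal (g : G)⁻¹ ⟨v, hvV⟩ := by
      apply Subtype.ext
      show (((g * v)⁻¹ * (v * g) : S) : G) = _
      rw [h1]
      simp
    rw [h3, map_mul, map_inv, h2, inv_mul_cancel]) (by
    intro x hx
    obtain ⟨x, rfl⟩ := QuotientGroup.mk'_surjective K' x
    have hxV : (x : G) ∉ V := by
      intro h
      exact hx ⟨x, Subgroup.mem_subgroupOf.2 h, rfl⟩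
    obtain ⟨g, h, h1, h2⟩ := char_step V lam hlam (x : G) (hcam x hxV)
    have hgS : g ∈ (S : Subgroup G) := by
      rw [← hTS]
      exact h2
    have hzS : (x : G)⁻¹ * (g * x * g⁻¹) ∈ (S : Subgroup G) := hVS h
    refine ⟨(QuotientGroup.mk' K') ⟨_, hzS⟩, ⟨⟨_, hzS⟩, Subgroup.mem_subgroupOf.2 h, rfl⟩, ?_, ?_⟩
    · intro h3
      have h4 : (⟨_, hzS⟩ : S) ∈ K' := (QuotientGroup.eq_one_iff _).1 h3
      obtain ⟨h5, h6⟩ := (memK' _).1 h4
      exact h1 h6
    · refine isConj_iff.2 ⟨(QuotientGroup.mk' K') ⟨g, hgS⟩, ?_⟩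
      rw [← map_mul, ← map_mul, ← map_inv, ← map_mul]
      congr 1
      apply Subtype.ext
      show g * (x : G) * g⁻¹ = (x : G) * ((x : G)⁻¹ * (g * x * g⁻¹))
      group)
  -- counting
  obtain ⟨r, hr⟩ := IsPGroup.iff_card.1 hVp
  have hS : Nat.card S = p ^ (Nat.card G).factorization p := Sylow.card_eq_multiplicity S
  have h1 : Nat.card S = p ^ (2 * m + r) := by
    have h2 := Subgroup.card_eq_card_quotient_mul_card_subgroup K'
    have h3 := Subgroup.card_eq_card_quotient_mul_card_subgroup Z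
    rw [hm, hZcard] at h3
    rw [h3, hK'card, Nat.mul_assoc, ← hVk, hr, ← pow_add] at h2
    exact h2
  have h2 : (Nat.card G).factorization p = 2 * m + r :=
    Nat.pow_right_injective hp.two_le (hS.symm.trans h1)
  have h3 : (Nat.card G).factorization p = (Nat.card (G ⧸ V)).factorization p + r := by
    rw [Subgroup.card_eq_card_quotient_mul_card_subgroup V,
      Nat.factorization_mul Nat.card_pos.ne' Nat.card_pos.ne', Finsupp.add_apply, hr,
      Nat.Prime.factorization_pow hp, Finsupp.single_eq_same]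
  exact ⟨m, by omega⟩

end Pool.Agent.BertramOdd
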