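import Pool.Agent.BertramOdd.Odd

/-! In a group of odd order a normal subgroup of order `p ^ r`, `r ≤ 4`, has `r - 1` classes. -/

set_option autoImplicit false

namespace Pool.Agent.BertramOdd

open Pool.Agent.BertramR2 Subgroup

theorem three_classes {Q : Type} [Group Q] [Finite Q] (hodd : Odd (Nat.card Q))
    (V : Subgroup Q) [hV : V.Normal] (hcard : Nat.card V % 4 = 1) (x : Q)
    (hx1 : x ≠ 1) (hx : x ∈ V) :
    ∃ y ∈ V, y ≠ 1 ∧ ¬ IsConj x y ∧ ¬ IsConj x⁻¹ y := by
  classical
  by_contra hcon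
  push Not at hcon
  have hall : ∀ y ∈ V, y ≠ 1 → IsConj x y ∨ IsConj x⁻¹ y := by
    intro y hy hy1
    by_cases h : IsConj x y
    · exact Or.inl h
    · exact Or.inr (hcon y hy hy1 h)
  have : Fintype Q := Fintype.ofFinite Q
  set A : Finset Q := Finset.univ.filter (fun w => IsConj x w) with hA
  set B : Finset Q := Finset.univ.filter (fun w => IsConj x⁻¹ w) with hB
  have hAc : A.card = (centralizer {x} : Subgroup Q).index := by
    rw [← card_conj, Nat.card_eq_fintype_card, Fintype.card_subtype]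
  have hBc : B.card = A.card := by
    apply Finset.card_bij (fun w _ => w⁻¹)
    · intro w hw
      simp only [hB, hA, Finset.mem_filter, Finset.mem_univ, true_and] at hw ⊢
      obtain ⟨c, hc⟩ := isConj_iff.1 hw
      refine isConj_iff.2 ⟨c, ?_⟩
      rw [← hc]
      group
    · intro a _ b _ hab
      exact inv_injective hab
    · intro w hw
      simp only [hB, hA, Finset.mem_filter, Finset.mem_univ, true_and] at hw
      refine ⟨w⁻¹, ?_, inv_inv w⟩
      simp only [hB, Finset.mem_filter, Finset.mem_univ, true_and]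
      obtain ⟨c, hc⟩ := isConj_iff.1 hw
      refine isConj_iff.2 ⟨c, ?_⟩
      rw [← hc]
      group
  have hdis : Disjoint A B := by
    rw [Finset.disjoint_left]
    intro w hw hw'
    simp only [hB, hA, Finset.mem_filter, Finset.mem_univ, true_and] at hw hw'
    exact hx1 (inv_conj hodd (hw.trans hw'.symm))
  have hVset : (A ∪ B) = Finset.univ.filter (fun w => w ∈ V ∧ w ≠ 1) := by
    ext w
    simp only [hB, hA, Finset.mem_union, Finset.mem_filter, Finset.mem_univ, true_and]
    constructor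
    · rintro (h | h)
      · refine ⟨normal_isConj hV h hx, ?_⟩
        rintro rfl
        rw [isConj_one_left] at h
        exact hx1 h
      · refine ⟨normal_isConj hV h (V.inv_mem hx), ?_⟩
        rintro rfl
        rw [isConj_one_left] at h
        exact hx1 (inv_eq_one.1 h)
    · rintro ⟨h1, h2⟩
      exact hall w h1 h2
  have hcount : (Finset.univ.filter (fun w : Q => w ∈ V ∧ w ≠ 1)).card + 1 = Nat.card V := by
    rw [Nat.card_eq_fintype_card, Fintype.card_subtype]
    have h1 : (Finset.univ.filter (fun w : Q => w ∈ V)) =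
        insert 1 (Finset.univ.filter (fun w : Q => w ∈ V ∧ w ≠ 1)) := by
      ext w
      simp only [Finset.mem_insert, Finset.mem_filter, Finset.mem_univ, true_and]
      constructor
      · intro h
        by_cases hw : w = 1
        · exact Or.inl hw
        · exact Or.inr ⟨h, hw⟩
      · rintro (rfl | h)
        · exact V.one_mem
        · exact h.1
    rw [h1, Finset.card_insert_of_notMem (by simp)]
  rw [← hVset, Finset.card_union_of_disjoint hdis, hBc] at hcount
  have hAodd : Odd A.card := by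
    rw [hAc]
    exact Odd.of_dvd_nat hodd (Subgroup.index_dvd_card _)
  obtain ⟨a, ha⟩ := hAodd
  omega

theorem odd_pow_four {p : ℕ} (h : Odd p) : p ^ 4 % 4 = 1 := by
  obtain ⟨b, hb⟩ := h
  have h3 : p % 4 = 1 ∨ p % 4 = 3 := by omega
  rw [Nat.pow_mod]
  rcases h3 with h3 | h3 <;> rw [h3]

theorem rank_four {Q : Type} [Group Q] [Finite Q] (hodd : Odd (Nat.card Q)) {p r : ℕ}
    (V : Subgroup Q) [hV : V.Normal] (hp : p.Prime) (hcard : Nat.card V = p ^ r)
    (hr : r ≤ 4 ∨ (r ≤ 5 ∧ 4 ∣ p ^ r - 1)) :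
    ∃ E : Finset Q, (∀ e ∈ E, e ∈ V ∧ e ≠ 1) ∧
      (∀ e ∈ E, ∀ e' ∈ E, IsConj e e' → e = e') ∧ r ≤ E.card + 1 := by
  classical
  by_cases hr1 : r ≤ 1
  · exact ⟨∅, by simp, by simp, by simpa using hr1⟩
  have hbot : V ≠ ⊥ := by
    intro h
    rw [h, Subgroup.card_bot] at hcard
    have h2 : 1 < p ^ r := Nat.one_lt_pow (by omega) hp.one_lt
    omega
  obtain ⟨⟨x, hx⟩, hx'⟩ := Subgroup.ne_bot_iff_exists_ne_one.1 hbot
  have hx1 : x ≠ 1 := fun h => hx' (Subtype.ext h)
  have hxi : ¬ IsConj x x⁻¹ := fun h => hx1 (inv_conj hodd h)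
  have hxi1 : x⁻¹ ≠ 1 := fun h => hx1 (inv_eq_one.1 h)
  have hne : x ≠ x⁻¹ := fun h => hxi (by rw [← h])
  by_cases hr3 : r ≤ 3
  · refine ⟨{x, x⁻¹}, ?_, ?_, ?_⟩
    · intro e he
      rcases Finset.mem_insert.1 he with rfl | he
      · exact ⟨hx, hx1⟩
      · rw [Finset.mem_singleton.1 he]
        exact ⟨V.inv_mem hx, hxi1⟩
    · intro e he e' he' hc
      rcases Finset.mem_insert.1 he with rfl | he
      · rcases Finset.mem_insert.1 he' with rfl | he'
        · rfl
        · rw [Finset.mem_singleton.1 he'] at hc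
          exact absurd hc hxi
      · rw [Finset.mem_singleton.1 he] at hc ⊢
        rcases Finset.mem_insert.1 he' with rfl | he'
        · exact absurd hc.symm hxi
        · rw [Finset.mem_singleton.1 he']
    · rw [Finset.card_pair hne]
      omega
  · have hV4 : Nat.card V % 4 = 1 := by
      rw [hcard]
      rcases hr with hr | hr
      · have hr4 : r = 4 := by omega
        subst hr4
        apply odd_pow_four
        have h1 : Odd (p ^ 4) := by
          rw [← hcard]
          exact Odd.of_dvd_nat hodd (Subgroup.card_subgroup_dvd_card V)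
        rw [pow_succ] at h1
        exact (Nat.odd_mul.1 h1).2
      · have h2 : 0 < p ^ r := pow_pos hp.pos r
        obtain ⟨c, hc⟩ := hr.2
        omega
    obtain ⟨y, hy, hy1, hxy, hxiy⟩ := three_classes hodd V hV4 x hx1 hx
    have hyi : ¬ IsConj y y⁻¹ := fun h => hy1 (inv_conj hodd h)
    have hyi1 : y⁻¹ ≠ 1 := fun h => hy1 (inv_eq_one.1 h)
    have hinv : ∀ a b : Q, IsConj a b → IsConj a⁻¹ b⁻¹ := by
      intro a b hab
      obtain ⟨c, hc⟩ := isConj_iff.1 hab
      refine isConj_iff.2 ⟨c, ?_⟩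
      rw [← hc]
      group
    have hxyi : ¬ IsConj x y⁻¹ := by
      intro h
      have h1 := hinv _ _ h
      rw [inv_inv] at h1
      exact hxiy h1
    have hxiyi : ¬ IsConj x⁻¹ y⁻¹ := by
      intro h
      have h1 := hinv _ _ h
      rw [inv_inv, inv_inv] at h1
      exact hxy h1
    have hmem : ∀ e, e ∈ ({x, x⁻¹, y, y⁻¹} : Finset Q) →
        e = x ∨ e = x⁻¹ ∨ e = y ∨ e = y⁻¹ := by
      intro e he
      simpa using he
    refine ⟨{x, x⁻¹, y, y⁻¹}, ?_, ?_, ?_⟩
    · intro e he
      rcases hmem e he with rfl | rfl | rfl | rfl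
      · exact ⟨hx, hx1⟩
      · exact ⟨V.inv_mem hx, hxi1⟩
      · exact ⟨hy, hy1⟩
      · exact ⟨V.inv_mem hy, hyi1⟩
    · intro e he e' he' hc
      rcases hmem e he with h | h | h | h <;> rcases hmem e' he' with h' | h' | h' | h' <;>
        rw [h, h'] at hc ⊢
      · exact absurd hc hxi
      · exact absurd hc hxy
      · exact absurd hc hxyi
      · exact absurd hc.symm hxi
      · exact absurd hc hxiy
      · exact absurd hc hxiyi
      · exact absurd hc.symm hxy
      · exact absurd hc.symm hxiy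
      · exact absurd hc hyi
      · exact absurd hc.symm hxyi
      · exact absurd hc.symm hxiyi
      · exact absurd hc.symm hyi
    · have h1 : y ∉ ({y⁻¹} : Finset Q) := by
        intro h
        exact hyi (by rw [← Finset.mem_singleton.1 h])
      have h2 : x⁻¹ ∉ ({y, y⁻¹} : Finset Q) := by
        intro h
        rcases Finset.mem_insert.1 h with h | h
        · exact hxiy (by rw [h])
        · exact hxiyi (by rw [Finset.mem_singleton.1 h])
      have h3 : x ∉ ({x⁻¹, y, y⁻¹} : Finset Q) := by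
        intro h
        rcases Finset.mem_insert.1 h with h | h
        · exact hne h
        · rcases Finset.mem_insert.1 h with h | h
          · exact hxy (by rw [h])
          · exact hxyi (by rw [← Finset.mem_singleton.1 h])
      rw [Finset.card_insert_of_notMem h3, Finset.card_insert_of_notMem h2,
        Finset.card_insert_of_notMem h1, Finset.card_singleton]
      omega

/-- the rank condition for a section -/
theorem rank_sec {G : Type} [Group G] [Finite G] (hodd : Odd (Nat.card G)) (N M : Subgroup G)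
    [hN : N.Normal] [hM : M.Normal] (hlt : N < M) {p r : ℕ} (hp : p.Prime)
    (hpr : N.relIndex M = p ^ r) (hr : r ≤ 4 ∨ (r ≤ 5 ∧ 4 ∣ p ^ r - 1)) :
    ∃ E : Finset G, (∀ e ∈ E, e ∈ M ∧ e ∉ N) ∧
      (∀ e ∈ E, ∀ e' ∈ E, e ≠ e' → ∀ g : G, (g * e * g⁻¹)⁻¹ * e' ∉ N) ∧
      r ≤ E.card + 1 := by
  classical
  have hMn : (M.map (QuotientGroup.mk' N)).Normal :=
    hM.map _ (QuotientGroup.mk'_surjective N)
  have hcard : Nat.card (M.map (QuotientGroup.mk' N)) = p ^ r := by
    have h1 := card_map_mul N M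
    have h2 := card_inf_mul N M
    rw [inf_eq_left.2 hlt.le] at h1 h2
    rw [← h2] at h1
    rw [← hpr]
    exact Nat.eq_of_mul_eq_mul_left Nat.card_pos h1
  obtain ⟨E, hE, hE2, hrE⟩ := rank_four (odd_quot hodd N) (M.map (QuotientGroup.mk' N)) hp hcard hr
  have hch : ∀ e : E, ∃ g ∈ M, (QuotientGroup.mk' N) g = e.1 := by
    rintro ⟨e, he⟩
    obtain ⟨g, hg, hge⟩ := (hE e he).1
    exact ⟨g, hg, hge⟩
  choose f hf1 hf2 using hch
  have hinj : Function.Injective f := by
    intro a b hab
    apply Subtype.ext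
    rw [← hf2 a, ← hf2 b, hab]
  refine ⟨Finset.univ.image f, ?_, ?_, ?_⟩
  · intro e he
    obtain ⟨a, -, rfl⟩ := Finset.mem_image.1 he
    refine ⟨hf1 a, ?_⟩
    intro h
    apply (hE a.1 a.2).2
    rw [← hf2 a]
    exact (QuotientGroup.eq_one_iff _).2 h
  · intro e he e' he' hne g hmem
    obtain ⟨a, -, rfl⟩ := Finset.mem_image.1 he
    obtain ⟨b, -, rfl⟩ := Finset.mem_image.1 he'
    apply hne
    have h1 : (QuotientGroup.mk' N) (g * f a * g⁻¹) = (QuotientGroup.mk' N) (f b) :=
      QuotientGroup.eq.2 hmem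
    rw [map_mul, map_mul, map_inv, hf2 a, hf2 b] at h1
    have h2 := hE2 a.1 a.2 b.1 b.2 (isConj_iff.2 ⟨_, h1⟩)
    rw [Subtype.ext h2]
  · rw [Finset.card_image_of_injective _ hinj, Finset.card_univ, Fintype.card_coe]
    exact hrE

end Pool.Agent.BertramOdd
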