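import Pool.Agent.BertramOdd.Fpf
import Pool.Agent.BertramOdd.Rank
import Pool.Agent.BertramOdd.Par
import Pool.Agent.BertramOdd.HallG

/-! The main induction. -/

set_option autoImplicit false

namespace Pool.Agent.BertramOdd

open Pool.Agent.BertramR2 Subgroup

theorem Om_card' {G : Type} [Group G] [Finite G] (V : Subgroup G) :
    Om (Nat.card G) = Om (Nat.card (G ⧸ V)) + Om (Nat.card V) := by
  rw [Subgroup.card_eq_card_quotient_mul_card_subgroup V]
  exact Om_mul Nat.card_pos.ne' Nat.card_pos.ne'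

theorem fact_card {G : Type} [Group G] [Finite G] (V : Subgroup G) {p r : ℕ} (hp : p.Prime)
    (hV : Nat.card V = p ^ r) :
    (Nat.card G).factorization p = (Nat.card (G ⧸ V)).factorization p + r := by
  rw [Subgroup.card_eq_card_quotient_mul_card_subgroup V,
    Nat.factorization_mul Nat.card_pos.ne' Nat.card_pos.ne', Finsupp.add_apply, hV,
    Nat.Prime.factorization_pow hp, Finsupp.single_eq_same]

theorem card_quot_lt' {G : Type} [Group G] [Finite G] (V : Subgroup G) (hV : V ≠ ⊥) :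
    Nat.card (G ⧸ V) < Nat.card G := by
  have h := Subgroup.card_eq_card_quotient_mul_card_subgroup V
  have h1 : 1 < Nat.card V := by
    have h2 : Nat.card V ≠ 1 := fun h => hV (Subgroup.card_eq_one.1 h)
    have h3 : 0 < Nat.card V := Nat.card_pos
    omega
  have h4 : 0 < Nat.card (G ⧸ V) := Nat.card_pos
  rw [h]
  nlinarith

/-- the gain is a multiple of `d` -/
theorem gain_dvd {G : Type} [Group G] [Finite G] {d : ℕ}
    (hd : ∀ s : ℕ, s.Prime → s ∣ Nat.card G → d ∣ s ^ 2 - 1) (V : Subgroup G) [V.Normal]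
    (hV : d ∣ Nat.card V - 1) : d ∣ cc G - cc (G ⧸ V) := by
  have h1 := hallG hd
  have h2 := hallG (G := G ⧸ V) (d := d) (fun s hs hsV =>
    hd s hs (hsV.trans (Subgroup.card_quotient_dvd_card V)))
  have hVc : Nat.card V ≡ 1 [MOD d] :=
    ((Nat.modEq_iff_dvd' Nat.card_pos).2 hV).symm
  have h3 : Nat.card (G ⧸ V) * cc G ≡ 1 [MOD d] := by
    rw [Subgroup.card_eq_card_quotient_mul_card_subgroup V] at h1
    have h4 : Nat.card (G ⧸ V) * Nat.card V * cc G ≡ Nat.card (G ⧸ V) * 1 * cc G [MOD d] :=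
      ((Nat.ModEq.refl _).mul hVc).mul (Nat.ModEq.refl _)
    rw [Nat.mul_one] at h4
    exact h4.symm.trans h1
  have h4 : Nat.card (G ⧸ V) * cc (G ⧸ V) ≡ Nat.card (G ⧸ V) * cc G [MOD d] := h2.trans h3.symm
  have hcop : Nat.gcd d (Nat.card (G ⧸ V)) = 1 := by
    have h5 : Nat.gcd d (Nat.card (G ⧸ V)) ∣ Nat.card (G ⧸ V) * cc G :=
      (Nat.gcd_dvd_right _ _).mul_right _
    have h6 : Nat.gcd d (Nat.card (G ⧸ V)) ∣ 1 :=
      ((h3.of_dvd (Nat.gcd_dvd_left _ _)).dvd_iff dvd_rfl).1 h5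
    exact Nat.dvd_one.1 h6
  have h5 := Nat.ModEq.cancel_left_of_coprime hcop h4
  exact (Nat.modEq_iff_dvd' (cc_quot_le V)).1 h5

/-- a minimal normal subgroup of prime power order that is not small gives a parity -/
theorem critical {G : Type} [Group G] [Finite G] (hodd : Odd (Nat.card G)) {p r : ℕ}
    (hp : p.Prime) (V : Subgroup G) [V.Normal] (hV : V ≠ ⊥)
    (hmin : ∀ K : Subgroup G, K.Normal → K ≤ V → K = ⊥ ∨ K = V) (hcard : Nat.card V = p ^ r)
    (hEd : (∃ E : Finset G, (∀ e ∈ E, e ∈ V ∧ e ≠ 1) ∧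
      (∀ e ∈ E, ∀ e' ∈ E, IsConj e e' → e = e') ∧ r ≤ E.card + 1) ∨
      (∃ d : ℕ, r ≤ d ∧ d ∣ p ^ r - 1 ∧ ∀ s : ℕ, s.Prime → s ∣ Nat.card G → d ∣ s ^ 2 - 1))
    (hcc : cc G < cc (G ⧸ V) + r) :
    cc G + 1 = cc (G ⧸ V) + r ∧ Odd r ∧ 3 ≤ r ∧
      (∀ x, x ∉ V → ∀ v ∈ V, IsConj x (x * v)) ∧
      Even ((Nat.card (G ⧸ V)).factorization p) := by
  have hVp : IsPGroup p V := IsPGroup.of_card hcard
  obtain ⟨⟨v, hv⟩, hv'⟩ := Subgroup.ne_bot_iff_exists_ne_one.1 hV
  have h3 := cc_ge_one V hv (fun h => hv' (Subtype.ext h))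
  obtain ⟨E, hE, hE2, hr⟩ | ⟨d, hd1, hd2, hd3⟩ := hEd
  swap
  · exfalso
    have h4 := Nat.le_of_dvd (by omega) (gain_dvd hd3 V (by rw [hcard]; exact hd2))
    omega
  have h1 := gain_ge V E hE hE2
  have h2 := gain_even hodd V
  obtain ⟨k, hk⟩ := h2
  have h4 : cc G + 1 = cc (G ⧸ V) + r := by omega
  have hcam := gain_camina V E hE hE2 (by omega)
  refine ⟨h4, ⟨k, by omega⟩, by omega, hcam, ?_⟩
  exact parity hp V hV hVp (min_comm hp V hVp hV hmin) (min_exp hp V hVp hV hmin) hcam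

theorem lemmaB {G : Type} [Group G] [Finite G] (hodd : Odd (Nat.card G)) (hS : OStar G)
    {p r : ℕ} (hp : p.Prime) (V : Subgroup G) [hVn : V.Normal] (hV : V ≠ ⊥)
    (hmin : ∀ K : Subgroup G, K.Normal → K ≤ V → K = ⊥ ∨ K = V) (hcard : Nat.card V = p ^ r)
    (hr : 3 ≤ r) (hcam : ∀ x, x ∉ V → ∀ v ∈ V, IsConj x (x * v))
    (IH : ∀ (N : Subgroup G) [N.Normal], N ≠ ⊥ →
      Om (Nat.card (G ⧸ N)) + 1 ≤ cc (G ⧸ N)) :
    ∀ n : ℕ, ∀ (R : Subgroup G) [R.Normal], V ≤ R → IsPGroup p R → Nat.card (G ⧸ R) = n →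
      Even ((Nat.card (G ⧸ R)).factorization p) →
      Om (Nat.card (G ⧸ R)) + 2 ≤ cc (G ⧸ R) := by
  have hVp : IsPGroup p V := IsPGroup.of_card hcard
  have hcomm := min_comm hp V hVp hV hmin
  have hexp := min_exp hp V hVp hV hmin
  have : Fact p.Prime := ⟨hp⟩
  intro n
  induction n using Nat.strong_induction_on with
  | _ n ih =>
  intro R hRn hVR hR hn hev
  have hRbot : R ≠ ⊥ := fun h => hV (le_bot_iff.1 (h ▸ hVR))
  have hcenR : ∀ m ∈ V, ∀ g ∈ R, g * m = m * g := central_of_min hp R V hR hVR hV hmin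
  -- `R` is not the whole group
  have hQ : (⊤ : Subgroup (G ⧸ R)) ≠ ⊥ := by
    intro htop
    have hRtop : ∀ g : G, g ∈ R := by
      intro g
      have h1 : (QuotientGroup.mk' R) g ∈ (⊥ : Subgroup (G ⧸ R)) := by
        rw [← htop]
        trivial
      rw [Subgroup.mem_bot] at h1
      exact (QuotientGroup.eq_one_iff g).1 h1
    obtain ⟨w, hw⟩ := exists_prime_orderOf_dvd_card' (G := V) p
      (by rw [hcard]; exact dvd_pow_self p (by omega))
    have hKn : (Subgroup.zpowers (w : G)).Normal := by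
      constructor
      intro x hx g
      have hxV : x ∈ V := (Subgroup.zpowers_le.2 w.2) hx
      have h1 := hcenR x hxV g (hRtop g)
      rw [h1, mul_assoc, mul_inv_cancel, mul_one]
      exact hx
    have hordw : orderOf (w : G) = p := by rw [← hw]; exact Subgroup.orderOf_coe w
    rcases hmin _ hKn (Subgroup.zpowers_le.2 w.2) with h | h
    · rw [Subgroup.zpowers_eq_bot] at h
      rw [h, orderOf_one] at hordw
      exact hp.one_lt.ne hordw
    · have h1 : Nat.card (Subgroup.zpowers (w : G)) = p := by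
        rw [Nat.card_zpowers, hordw]
      rw [h, hcard] at h1
      have h2 : p ^ 1 < p ^ r := Nat.pow_lt_pow_right hp.one_lt (by omega)
      rw [pow_one] at h2
      omega
  obtain ⟨M', hM'n, -, hM'bot, hM'min⟩ := exists_min (⊤ : Subgroup (G ⧸ R)) hQ
  obtain ⟨M, hRM, rfl⟩ : ∃ M : Subgroup G, R ≤ M ∧ M' = M.map (QuotientGroup.mk' R) := by
    refine ⟨M'.comap (QuotientGroup.mk' R), ?_, ?_⟩
    · intro x hx
      rw [Subgroup.mem_comap]
      have h1 : (QuotientGroup.mk' R) x = 1 := (QuotientGroup.eq_one_iff x).2 hx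
      rw [h1]
      exact M'.one_mem
    · rw [Subgroup.map_comap_eq_self_of_surjective (QuotientGroup.mk'_surjective R)]
  have hMn : M.Normal := by
    have h1 : (M.map (QuotientGroup.mk' R)).comap (QuotientGroup.mk' R) = M := by
      rw [Subgroup.comap_map_eq, QuotientGroup.ker_mk', sup_eq_left.2 hRM]
    rw [← h1]
    exact hM'n.comap _
  have hMbot : M ≠ ⊥ := fun h => hRbot (le_bot_iff.1 (h ▸ hRM))
  change Om (Nat.card (G ⧸ R)) + 2 ≤ cc (G ⧸ R)
  set M' : Subgroup (G ⧸ R) := M.map (QuotientGroup.mk' R) with hM'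
  have hoddQ : Odd (Nat.card (G ⧸ R)) := odd_quot hodd R
  have e : ((G ⧸ R) ⧸ M') ≃* (G ⧸ M) := QuotientGroup.quotientQuotientEquivQuotient R M hRM
  have hcardQM : Nat.card ((G ⧸ R) ⧸ M') = Nat.card (G ⧸ M) := Nat.card_congr e.toEquiv
  have hccQM : cc ((G ⧸ R) ⧸ M') = cc (G ⧸ M) := cc_congr e
  obtain ⟨s, j, hs, hsj, hEd⟩ := (hS.quot R).min M' hM'bot hM'min
  have hj0 : j ≠ 0 := by
    rintro rfl
    rw [pow_zero, Subgroup.card_eq_one] at hsj
    exact hM'bot hsj
  have hIH := IH M hMbot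
  have hOmQ := Om_card' M'
  rw [hsj, Om_pow hs, hcardQM] at hOmQ
  have hge := gain_even hoddQ M'
  rw [hccQM] at hge
  obtain ⟨k, hk⟩ := hge
  have hle := cc_quot_le M'
  rw [hccQM] at hle
  by_cases hsp : s = p
  · subst hsp
    have hfac := fact_card M' hp hsj
    rw [hcardQM] at hfac
    by_cases hgj : cc (G ⧸ M) + j ≤ cc (G ⧸ R)
    · rcases Nat.even_or_odd j with hje | hjo
      · have hevM : Even ((Nat.card (G ⧸ M)).factorization s) := by
          rw [hfac] at hev
          exact (Nat.even_add.1 hev).2 hje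
        have hMp : IsPGroup s M := by
          obtain ⟨a, ha⟩ := IsPGroup.iff_card.1 hR
          have h1 := card_map_mul R M
          rw [inf_eq_left.2 hRM, ha, ← hM', hsj, ← pow_add] at h1
          exact IsPGroup.of_card h1.symm
        have hlt : Nat.card (G ⧸ M) < n := by
          rw [← hn, ← hcardQM]
          exact card_quot_lt' M' hM'bot
        have h1 := ih _ hlt M (hVR.trans hRM) hMp rfl hevM
        omega
      · obtain ⟨l, hl⟩ := hjo
        omega
    · exfalso
      obtain ⟨h1, h2, -, -, h5⟩ := critical hoddQ hp M' hM'bot hM'min hsj hEd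
        (by rw [hccQM]; omega)
      rw [hcardQM] at h5
      rw [hfac] at hev
      have h6 := (Nat.even_add.1 hev).1 h5
      exact (Nat.not_even_iff_odd.2 h2) h6
  · -- `M / R` is an `s`-group
    have : Fact s.Prime := ⟨hs⟩
    have hM'p : IsPGroup s M' := IsPGroup.of_card hsj
    have hc' := min_comm hs M' hM'p hM'bot hM'min
    have hx' := min_exp hs M' hM'p hM'bot hM'min
    by_cases hj1 : j = 1
    · obtain ⟨⟨v, hv⟩, hv'⟩ := Subgroup.ne_bot_iff_exists_ne_one.1 hM'bot
      have h3 := cc_ge_one M' hv (fun h => hv' (Subtype.ext h))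
      rw [hccQM] at h3
      omega
    · exfalso
      obtain ⟨⟨b', hb'⟩, hb1⟩ := Subgroup.ne_bot_iff_exists_ne_one.1 hM'bot
      have hb1' : b' ≠ 1 := fun h => hb1 (Subtype.ext h)
      have hordb : orderOf b' = s := by
        rcases (Nat.dvd_prime hs).1 (orderOf_dvd_of_pow_eq_one (hx' b' hb')) with h | h
        · exact absurd (orderOf_eq_one_iff.1 h) hb1'
        · exact h
      obtain ⟨a', ha', hab'⟩ : ∃ a' ∈ M', a' ∉ Subgroup.zpowers b' := by
        by_contra hcon
        push Not at hcon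
        have h1 : M' ≤ Subgroup.zpowers b' := hcon
        have h2 := Subgroup.card_le_of_le h1
        rw [hsj, Nat.card_zpowers, hordb] at h2
        have h3 : s ^ 1 < s ^ j := Nat.pow_lt_pow_right hs.one_lt (by omega)
        rw [pow_one] at h3
        omega
      obtain ⟨a, ha, rfl⟩ := ha'
      obtain ⟨b, hb, rfl⟩ := hb'
      -- elements of `M` outside `R`
      have key : ∀ c ∈ M, (QuotientGroup.mk' R) c ≠ 1 → ∀ v ∈ V, c * v = v * c → v = 1 := by
        intro c hc hc1 v hv hcv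
        have hcM' : (QuotientGroup.mk' R) c ∈ M' := ⟨c, hc, rfl⟩
        have h1 : orderOf ((QuotientGroup.mk' R) c) = s := by
          rcases (Nat.dvd_prime hs).1 (orderOf_dvd_of_pow_eq_one (hx' _ hcM')) with h | h
          · exact absurd (orderOf_eq_one_iff.1 h) hc1
          · exact h
        have h2 : s ∣ orderOf c := by
          rw [← h1]
          exact orderOf_map_dvd _ c
        exact fpf_of_camina hp V hexp hcam hs hsp h2 hv hcv
      have key2 : ∀ c ∈ M, ∀ v ∈ V, c ^ s * v = v * c ^ s := by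
        intro c hc v hv
        have hcM' : (QuotientGroup.mk' R) c ∈ M' := ⟨c, hc, rfl⟩
        have h1 : c ^ s ∈ R := by
          have h2 : (QuotientGroup.mk' R) (c ^ s) = 1 := by
            rw [map_pow]
            exact hx' _ hcM'
          exact (QuotientGroup.eq_one_iff _).1 h2
        exact hcenR v hv _ h1
      refine no_fpf hp hs hsp V hV hcomm hexp a b ?_ ?_ ?_ ?_ ?_
      · intro v hv
        have h1 : (QuotientGroup.mk' R) a * (QuotientGroup.mk' R) b =
            (QuotientGroup.mk' R) b * (QuotientGroup.mk' R) a :=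
          hc' _ ⟨a, ha, rfl⟩ _ ⟨b, hb, rfl⟩
        rw [← map_mul, ← map_mul] at h1
        have h2 : (b * a)⁻¹ * (a * b) ∈ R := QuotientGroup.eq.1 h1.symm
        have h3 := hcenR v hv _ h2
        have h4 : a * b = (b * a) * ((b * a)⁻¹ * (a * b)) := by group
        set t := (b * a)⁻¹ * (a * b) with ht
        rw [h4]
        calc b * a * t * v * (b * a * t)⁻¹ = b * a * (t * v) * t⁻¹ * (b * a)⁻¹ := by group
          _ = b * a * (v * t) * t⁻¹ * (b * a)⁻¹ := by rw [h3]
          _ = b * a * v * (b * a)⁻¹ := by group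
      · intro i
        apply key _ (M.mul_mem ha (M.pow_mem hb i))
        intro h
        rw [map_mul, map_pow] at h
        apply hab'
        rw [eq_inv_of_mul_eq_one_left h]
        exact Subgroup.inv_mem _ (Subgroup.npow_mem_zpowers _ _)
      · intro i
        exact key2 _ (M.mul_mem ha (M.pow_mem hb i))
      · intro i hi his
        apply key _ (M.pow_mem hb i)
        intro h
        rw [map_pow] at h
        have h1 := orderOf_dvd_of_pow_eq_one h
        rw [hordb] at h1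
        exact absurd (Nat.le_of_dvd hi h1) (by omega)
      · intro i
        exact key2 _ (M.pow_mem hb i)

theorem main_aux : ∀ n : ℕ, ∀ (G : Type) [Group G] [Finite G], Nat.card G = n →
    Odd (Nat.card G) → OStar G → Om (Nat.card G) + 1 ≤ cc G := by
  intro n
  induction n using Nat.strong_induction_on with
  | _ n ih =>
  intro G _ _ hn hodd hS
  by_cases htop : (⊤ : Subgroup G) = ⊥
  · have h1 : Nat.card G = 1 := by
      rw [← Subgroup.card_top, htop, Subgroup.card_bot]
    rw [h1, Om_one]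
    have : Nonempty (ConjClasses G) := ⟨1⟩
    have h2 : 1 ≤ cc G := Nat.card_pos
    omega
  obtain ⟨V, hVn, -, hV, hmin⟩ := exists_min (⊤ : Subgroup G) htop
  obtain ⟨p, r, hp, hcard, hEd⟩ := hS.min V hV hmin
  have IH : ∀ (N : Subgroup G) [N.Normal], N ≠ ⊥ →
      Om (Nat.card (G ⧸ N)) + 1 ≤ cc (G ⧸ N) := by
    intro N _ hN
    exact ih _ (by rw [← hn]; exact card_quot_lt' N hN) (G ⧸ N) rfl (odd_quot hodd N) (hS.quot N)
  have hOm := Om_card' V
  rw [hcard, Om_pow hp] at hOm
  have hIH := IH V hV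
  by_cases hg : cc (G ⧸ V) + r ≤ cc G
  · omega
  · obtain ⟨h1, -, h3, h4, h5⟩ := critical hodd hp V hV hmin hcard hEd (by omega)
    have h6 := lemmaB hodd hS hp V hV hmin hcard h3 h4 IH _ V le_rfl (IsPGroup.of_card hcard)
      rfl h5
    omega

theorem main (G : Type) [Group G] [Finite G] (hodd : Odd (Nat.card G)) (hS : OStar G) :
    Om (Nat.card G) + 1 ≤ cc G :=
  main_aux _ G rfl hodd hS

end Pool.Agent.BertramOdd
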