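import Pool.Agent.BertramR2.Chain

/-! Groups of odd order: gains are even. -/

set_option autoImplicit false

namespace Pool.Agent.BertramOdd

open Pool.Agent.BertramR2 Subgroup

theorem eq_sq_pow {G : Type} [Group G] [Finite G] (hodd : Odd (Nat.card G)) (g : G) :
    ∃ k : ℕ, (g * g) ^ k = g := by
  obtain ⟨k, hk⟩ := hodd
  refine ⟨k + 1, ?_⟩
  have h1 : g ^ Nat.card G = 1 := pow_card_eq_one'
  rw [hk] at h1
  rw [← pow_two, ← pow_mul]
  have h2 : 2 * (k + 1) = (2 * k + 1) + 1 := by ring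
  rw [h2, pow_succ, h1, one_mul]

/-- in a group of odd order only `1` is conjugate to its inverse -/
theorem inv_conj {G : Type} [Group G] [Finite G] (hodd : Odd (Nat.card G)) {x : G}
    (h : IsConj x x⁻¹) : x = 1 := by
  obtain ⟨g, hg⟩ := isConj_iff.1 h
  have h1 : Commute (g * g) x := by
    show g * g * x = x * (g * g)
    have h2 : g * x * g⁻¹ = x⁻¹ := hg
    have h3 : g * (g * x * g⁻¹) * g⁻¹ = x := by
      rw [h2]
      have h4 : g * x⁻¹ * g⁻¹ = (g * x * g⁻¹)⁻¹ := by group
      rw [h4, h2, inv_inv]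
    calc g * g * x = (g * (g * x * g⁻¹) * g⁻¹) * (g * g) := by group
      _ = x * (g * g) := by rw [h3]
  obtain ⟨k, hk⟩ := eq_sq_pow hodd g
  have h2 : Commute g x := by
    rw [← hk]
    exact h1.pow_left k
  have h3 : x = x⁻¹ := by
    rw [← hg]
    have h4 : g * x = x * g := h2
    rw [h4]
    group
  obtain ⟨l, hl⟩ := eq_sq_pow hodd x
  have h4 : x * x = 1 := by
    nth_rewrite 1 [h3]
    group
  rw [h4, one_pow] at hl
  exact hl.symm

/-- the class of the inverse -/
def cinv {G : Type} [Group G] (C : ConjClasses G) : ConjClasses G :=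
  Quotient.liftOn C (fun x => ConjClasses.mk x⁻¹) (by
    intro a b hab
    apply ConjClasses.mk_eq_mk_iff_isConj.2
    obtain ⟨c, hc⟩ := isConj_iff.1 hab
    refine isConj_iff.2 ⟨c, ?_⟩
    rw [← hc]
    group)

theorem cinv_mk {G : Type} [Group G] (x : G) : cinv (ConjClasses.mk x) = ConjClasses.mk x⁻¹ := rfl

theorem cinv_cinv {G : Type} [Group G] (C : ConjClasses G) : cinv (cinv C) = C := by
  obtain ⟨x, rfl⟩ := ConjClasses.exists_rep C
  rw [cinv_mk, cinv_mk, inv_inv]

/-- the number of classes of a group of odd order is odd -/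
theorem cc_odd {G : Type} [Group G] [Finite G] (hodd : Odd (Nat.card G)) : Odd (cc G) := by
  classical
  have := Fintype.ofFinite (ConjClasses G)
  have : Fact (Nat.Prime 2) := ⟨Nat.prime_two⟩
  have h1 := Equiv.Perm.card_fixedPoints_modEq (α := ConjClasses G)
    (f := (cinv : Function.End (ConjClasses G))) (p := 2) (n := 1)
    (by funext a; exact cinv_cinv a)
  have h2 : Fintype.card (Function.fixedPoints (cinv : Function.End (ConjClasses G))) = 1 := by
    rw [Fintype.card_eq_one_iff]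
    refine ⟨⟨ConjClasses.mk 1, ?_⟩, ?_⟩
    · show cinv (ConjClasses.mk 1) = ConjClasses.mk (1 : G)
      rw [cinv_mk, inv_one]
    · rintro ⟨C, hC⟩
      apply Subtype.ext
      show C = ConjClasses.mk 1
      obtain ⟨x, rfl⟩ := ConjClasses.exists_rep C
      have h3 : cinv (ConjClasses.mk x) = ConjClasses.mk x := hC
      rw [cinv_mk] at h3
      have h4 := inv_conj hodd (ConjClasses.mk_eq_mk_iff_isConj.1 h3).symm
      rw [h4]
  rw [h2] at h1
  unfold cc
  rw [Nat.card_eq_fintype_card, Nat.odd_iff]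
  exact h1

theorem odd_quot {G : Type} [Group G] [Finite G] (hodd : Odd (Nat.card G)) (N : Subgroup G)
    [N.Normal] : Odd (Nat.card (G ⧸ N)) :=
  Odd.of_dvd_nat hodd (Subgroup.card_quotient_dvd_card N)

/-- gains are even -/
theorem gain_even {G : Type} [Group G] [Finite G] (hodd : Odd (Nat.card G)) (N : Subgroup G)
    [N.Normal] : Even (cc G - cc (G ⧸ N)) := by
  have h1 := cc_odd hodd
  have h2 := cc_odd (odd_quot hodd N)
  exact Nat.Odd.sub_odd h1 h2

/-- the section `M / N` has order `p ^ r` and contains at least `r - 1` nontrivial classes of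
`G / N`; or `r ≤ d`, where `d` divides `p ^ r - 1` and `s ^ 2 - 1` for every prime divisor `s` of
`|G|` -/
def OSec {G : Type} [Group G] (N M : Subgroup G) : Prop :=
  ∃ p r : ℕ, p.Prime ∧ N.relIndex M = p ^ r ∧
    ((∃ E : Finset G, (∀ e ∈ E, e ∈ M ∧ e ∉ N) ∧
      (∀ e ∈ E, ∀ e' ∈ E, e ≠ e' → ∀ g : G, (g * e * g⁻¹)⁻¹ * e' ∉ N) ∧
      r ≤ E.card + 1) ∨
    (∃ d : ℕ, r ≤ d ∧ d ∣ p ^ r - 1 ∧ ∀ s : ℕ, s.Prime → s ∣ Nat.card G → d ∣ s ^ 2 - 1))

/-- every chief factor of `G` satisfies `OSec` -/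
def OStar (G : Type) [Group G] : Prop :=
  ∀ N M : Subgroup G, N.Normal → M.Normal → N < M →
    (∀ K : Subgroup G, K.Normal → N ≤ K → K ≤ M → K = N ∨ K = M) → OSec N M

theorem OStar.of_surj {G H : Type} [Group G] [Group H] [Finite G] (f : G →* H)
    (hf : Function.Surjective f) (hG : OStar G) : OStar H := by
  classical
  intro N M hN hM hlt hmin
  have h1 : (N.comap f).relIndex (M.comap f) = N.relIndex M := by
    rw [Subgroup.relIndex_comap, Subgroup.map_comap_eq_self_of_surjective hf]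
  obtain ⟨p, r, hp, hpr, hEd⟩ := hG (N.comap f) (M.comap f) (hN.comap f) (hM.comap f)
    ((Subgroup.comap_lt_comap_of_surjective hf).2 hlt) (by
      intro K hK hNK hKM
      have hker : f.ker ≤ K := by
        refine le_trans ?_ hNK
        intro x hx
        rw [Subgroup.mem_comap, (MonoidHom.mem_ker).1 hx]
        exact N.one_mem
      have hKc : (K.map f).comap f = K := by
        rw [Subgroup.comap_map_eq, sup_eq_left.2 hker]
      have h3 := hmin (K.map f) (hK.map f hf) (by
        rw [← Subgroup.comap_le_comap_of_surjective hf, hKc]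
        exact hNK) (by
        rw [← Subgroup.comap_le_comap_of_surjective hf, hKc]
        exact hKM)
      rcases h3 with h3 | h3
      · left
        rw [← hKc, h3]
      · right
        rw [← hKc, h3])
  rw [h1] at hpr
  rcases hEd with ⟨E, hE1, hE2, hE3⟩ | ⟨d, hd1, hd2, hd3⟩
  swap
  · exact ⟨p, r, hp, hpr, Or.inr ⟨d, hd1, hd2, fun s hs hsH =>
      hd3 s hs (hsH.trans (Subgroup.card_dvd_of_surjective f hf))⟩⟩
  refine ⟨p, r, hp, hpr, Or.inl ⟨E.image f, ?_, ?_, ?_⟩⟩
  · intro e' he'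
    obtain ⟨e, he, rfl⟩ := Finset.mem_image.1 he'
    exact hE1 e he
  · intro e1 he1 e2 he2 hne h
    obtain ⟨a, ha, rfl⟩ := Finset.mem_image.1 he1
    obtain ⟨b, hb, rfl⟩ := Finset.mem_image.1 he2
    obtain ⟨g, rfl⟩ := hf h
    intro hmem
    apply hE2 a ha b hb (fun hab => hne (by rw [hab])) g
    rw [Subgroup.mem_comap]
    simpa using hmem
  · rw [Finset.card_image_of_injOn]
    · exact hE3
    · intro a ha b hb hab
      by_contra hne
      apply hE2 a ha b hb hne 1
      rw [Subgroup.mem_comap]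
      have hab' : f a = f b := hab
      simp [hab']

theorem OStar.quot {G : Type} [Group G] [Finite G] (hG : OStar G) (N : Subgroup G) [N.Normal] :
    OStar (G ⧸ N) :=
  hG.of_surj (QuotientGroup.mk' N) (QuotientGroup.mk'_surjective N)

/-- for a minimal normal subgroup -/
theorem OStar.min {G : Type} [Group G] (hG : OStar G) (M : Subgroup G) [hM : M.Normal]
    (hbot : M ≠ ⊥) (hmin : ∀ K : Subgroup G, K.Normal → K ≤ M → K = ⊥ ∨ K = M) :
    ∃ p r : ℕ, p.Prime ∧ Nat.card M = p ^ r ∧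
      ((∃ E : Finset G, (∀ e ∈ E, e ∈ M ∧ e ≠ 1) ∧
      (∀ e ∈ E, ∀ e' ∈ E, IsConj e e' → e = e') ∧ r ≤ E.card + 1) ∨
      (∃ d : ℕ, r ≤ d ∧ d ∣ p ^ r - 1 ∧ ∀ s : ℕ, s.Prime → s ∣ Nat.card G → d ∣ s ^ 2 - 1)) := by
  have h := hG ⊥ M inferInstance hM (bot_lt_iff_ne_bot.2 hbot)
    (fun K hK _ hKM => hmin K hK hKM)
  unfold OSec at h
  rw [Subgroup.relIndex_bot_left] at h
  obtain ⟨p, r, hp, hpr, ⟨E, hE1, hE2, hE3⟩ | hd⟩ := h
  swap
  · exact ⟨p, r, hp, hpr, Or.inr hd⟩
  refine ⟨p, r, hp, hpr, Or.inl ⟨E, ?_, ?_, hE3⟩⟩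
  · intro e he
    exact ⟨(hE1 e he).1, fun h => (hE1 e he).2 (Subgroup.mem_bot.2 h)⟩
  · intro e he e' he' hc
    by_contra hne
    obtain ⟨g, hg⟩ := isConj_iff.1 hc
    apply hE2 e he e' he' hne g
    rw [Subgroup.mem_bot, hg]
    group

/-- the classes inside `V` count -/
theorem gain_ge {G : Type} [Group G] [Finite G] (V : Subgroup G) [hV : V.Normal] (E : Finset G)
    (hE : ∀ e ∈ E, e ∈ V ∧ e ≠ 1) (hE2 : ∀ e ∈ E, ∀ e' ∈ E, IsConj e e' → e = e') :
    cc (G ⧸ V) + E.card ≤ cc G := by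
  apply cc_add_le V E (fun _ => 1) hE2
  intro e he
  refine ⟨by simpa using (hE e he).1, ?_⟩
  intro e' he' hc
  rw [isConj_one_right] at hc
  exact (hE e' he').2 hc

/-- if nothing outside `V` is gained then `(G, V)` is a Camina pair -/
theorem gain_camina {G : Type} [Group G] [Finite G] (V : Subgroup G) [hV : V.Normal]
    (E : Finset G)
    (hE : ∀ e ∈ E, e ∈ V ∧ e ≠ 1) (hE2 : ∀ e ∈ E, ∀ e' ∈ E, IsConj e e' → e = e')
    (hcc : cc G ≤ cc (G ⧸ V) + E.card) : ∀ x, x ∉ V → ∀ v ∈ V, IsConj x (x * v) := by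
  classical
  intro x hx v hv
  by_contra hcon
  have hxv : x * v ∉ V := fun h => hx ((Subgroup.mul_mem_cancel_right V hv).1 h)
  have hne : x * v ∉ E := fun h => hxv (hE _ h).1
  have h := cc_add_le V (insert (x * v) E) (fun e => if e ∈ V then 1 else x) ?_ ?_
  · rw [Finset.card_insert_of_notMem hne] at h
    omega
  · intro e he e' he' hc
    rcases Finset.mem_insert.1 he with rfl | he
    · rcases Finset.mem_insert.1 he' with rfl | he'
      · rfl
      · exact absurd (normal_isConj hV hc.symm (hE e' he').1) hxv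
    · rcases Finset.mem_insert.1 he' with rfl | he'
      · exact absurd (normal_isConj hV hc (hE e he).1) hxv
      · exact hE2 e he e' he' hc
  · intro e he
    rcases Finset.mem_insert.1 he with rfl | he
    · simp only [if_neg hxv]
      refine ⟨by simpa using hv, ?_⟩
      intro e' he' hc
      rcases Finset.mem_insert.1 he' with rfl | he'
      · exact hcon hc
      · exact hx (normal_isConj hV hc.symm (hE e' he').1)
    · simp only [if_pos (hE e he).1]
      refine ⟨by simpa using (hE e he).1, ?_⟩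
      intro e' he' hc
      rw [isConj_one_right] at hc
      rcases Finset.mem_insert.1 he' with rfl | he'
      · exact hxv (hc ▸ V.one_mem)
      · exact (hE e' he').2 hc

end Pool.Agent.BertramOdd
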